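import Pool.Agent.TH138.NF.Defs

/-!
# Colourings of `r`-subsets with few changes in one coordinate
-/

set_option autoImplicit false

namespace Pool.Agent.V11209.FC

open Finset Pool.Agent.TH138.NF

/-- The number of elements of `A` below `x`. -/
def below (A : Finset ℕ) (x : ℕ) : ℕ := (A.filter (fun a => a < x)).card

/-- In the colouring `c` of the `r`-subsets of `V` the colour changes at most `t` times when the
vertex number `j` (`0 ≤ j < r`, the vertices being listed in increasing order) moves to the right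
between its two neighbours, the other `r - 1` vertices being fixed: for each set `A` of `r - 1`
vertices the positions can be divided into `t + 1` consecutive intervals (the sets on which a
monotone function `g` with values in `{0, …, t}` is constant), such that on each of them the colour of
`A ∪ {x}` is the same for all `x` of `V` outside `A` above exactly `j` elements of `A`. -/
def FewChanges {κ : Type} (c : Finset ℕ → κ) (r j t : ℕ) (V : Finset ℕ) : Prop :=
  ∀ A ⊆ V, A.card + 1 = r → ∃ (g : ℕ → ℕ) (h : ℕ → κ), Monotone g ∧ (∀ x, g x ≤ t) ∧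
    ∀ x ∈ V, x ∉ A → below A x = j → c (insert x A) = h (g x)

variable {κ : Type}

theorem FewChanges.mono {c : Finset ℕ → κ} {r j t : ℕ} {V U : Finset ℕ}
    (h : FewChanges c r j t V) (hU : U ⊆ V) : FewChanges c r j t U := by
  intro A hA hc
  obtain ⟨g, k, h1, h2, h3⟩ := h A (hA.trans hU) hc
  exact ⟨g, k, h1, h2, fun x hx hxA hb => h3 x (hU hx) hxA hb⟩

/-- adding a last vertex -/
theorem FewChanges.top {c : Finset ℕ → κ} {r j t : ℕ} {V U : Finset ℕ}
    (h : FewChanges c (r + 1) j t V) (hU : U ⊆ V) {w : ℕ} (hw : w ∈ V) (hlt : ∀ u ∈ U, u < w) :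
    FewChanges (fun A => c (insert w A)) r j t U := by
  intro A hA hc
  have hwA : w ∉ A := fun h => (hlt w (hA h)).ne rfl
  obtain ⟨g, k, h1, h2, h3⟩ := h (insert w A) (insert_subset_iff.2 ⟨hw, hA.trans hU⟩)
    (by rw [card_insert_of_notMem hwA]; omega)
  refine ⟨g, k, h1, h2, fun x hx hxA hb => ?_⟩
  have hxw : x < w := hlt x hx
  have := h3 x (hU hx) (by
    rw [mem_insert, not_or]
    exact ⟨hxw.ne, hxA⟩) (by
    rw [← hb]
    unfold below
    rw [filter_insert, if_neg (by omega)])
  rw [← this]
  show c (insert w (insert x A)) = _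
  rw [insert_comm]

/-! ### reversal -/

theorem rev_rev {B x : ℕ} (hx : x ≤ B) : B - (B - x) = x := by omega

theorem image_rev_rev {B : ℕ} {A : Finset ℕ} (hA : ∀ a ∈ A, a ≤ B) :
    (A.image (fun x => B - x)).image (fun x => B - x) = A := by
  rw [image_image]
  ext x
  simp only [mem_image, Function.comp]
  constructor
  · rintro ⟨a, ha, rfl⟩
    rw [rev_rev (hA a ha)]
    exact ha
  · intro hx
    exact ⟨x, hx, rev_rev (hA x hx)⟩

theorem rev_injOn {B : ℕ} {A : Finset ℕ} (hA : ∀ a ∈ A, a ≤ B) :
    Set.InjOn (fun x => B - x) (A : Set ℕ) := by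
  intro x hx y hy hxy
  have h1 := hA x hx
  have h2 := hA y hy
  simp only at hxy
  omega

/-- the reversed colouring -/
def revC (B : ℕ) (c : Finset ℕ → κ) : Finset ℕ → κ := fun A => c (A.image (fun x => B - x))

theorem FewChanges.rev {c : Finset ℕ → κ} {r j t : ℕ} {V : Finset ℕ}
    (h : FewChanges c r j t V) (hj : j < r) {B : ℕ} (hB : ∀ v ∈ V, v ≤ B) :
    FewChanges (revC B c) r (r - 1 - j) t (V.image (fun x => B - x)) := by
  intro A hA hc
  have hAB : ∀ a ∈ A, a ≤ B := by
    intro a ha
    obtain ⟨v, -, rfl⟩ := mem_image.1 (hA ha)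
    exact Nat.sub_le _ _
  have hA' : A.image (fun x => B - x) ⊆ V := by
    intro x hx
    obtain ⟨a, ha, rfl⟩ := mem_image.1 hx
    obtain ⟨v, hv, rfl⟩ := mem_image.1 (hA ha)
    rw [rev_rev (hB v hv)]
    exact hv
  obtain ⟨g, k, h1, h2, h3⟩ := h (A.image (fun x => B - x)) hA'
    (by rw [card_image_of_injOn (rev_injOn hAB)]; exact hc)
  refine ⟨fun x => t - g (B - x), fun i => k (t - i), ?_, fun x => Nat.sub_le _ _, ?_⟩
  · intro x y hxy
    exact Nat.sub_le_sub_left (h1 (Nat.sub_le_sub_left hxy B)) t
  · intro x hx hxA hb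
    obtain ⟨v, hv, rfl⟩ := mem_image.1 hx
    have hvB := hB v hv
    have hg : g v ≤ t := h2 v
    have hgo : t - (t - g (B - (B - v))) = g v := by
      rw [rev_rev hvB]
      omega
    simp only [hgo]
    rw [← h3 v hv ?_ ?_]
    · unfold revC
      rw [image_insert]
      rw [rev_rev hvB]
    · intro hmem
      obtain ⟨a, ha, hav⟩ := mem_image.1 hmem
      apply hxA
      have : a = B - v := by
        have := hAB a ha
        omega
      rw [← this]
      exact ha
    · unfold below at hb ⊢
      have e1 : (A.image (fun x => B - x)).filter (fun a => a < v) =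
          (A.filter (fun a => ¬ a < B - v)).image (fun x => B - x) := by
        ext x
        simp only [mem_filter, mem_image]
        constructor
        · rintro ⟨⟨a, ha, rfl⟩, hlt⟩
          refine ⟨a, ⟨ha, ?_⟩, rfl⟩
          have := hAB a ha
          omega
        · rintro ⟨a, ⟨ha, hlt⟩, rfl⟩
          refine ⟨⟨a, ha, rfl⟩, ?_⟩
          have h4 := hAB a ha
          have h5 : a ≠ B - v := fun e => hxA (e ▸ ha)
          omega
      rw [e1, card_image_of_injOn ((rev_injOn hAB).mono (by
        intro x hx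
        exact mem_of_mem_filter x hx))]
      have h6 := card_filter_add_card_filter_not (s := A) (fun a => a < B - v)
      omega

theorem hom_rev {c : Finset ℕ → κ} {r B : ℕ} {H : Finset ℕ} (hB : ∀ v ∈ H, v ≤ B)
    (h : Homogeneous r (revC B c) H) : Homogeneous r c (H.image (fun x => B - x)) := by
  have hB' : ∀ A ⊆ H.image (fun x => B - x), ∀ a ∈ A, a ≤ B := by
    intro A hA a ha
    obtain ⟨v, -, rfl⟩ := mem_image.1 (hA ha)
    exact Nat.sub_le _ _
  have hs : ∀ A ⊆ H.image (fun x => B - x), A.image (fun x => B - x) ⊆ H := by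
    intro A hA x hx
    obtain ⟨a, ha, rfl⟩ := mem_image.1 hx
    obtain ⟨v, hv, rfl⟩ := mem_image.1 (hA ha)
    rw [rev_rev (hB v hv)]
    exact hv
  intro A hA A' hA' hc hc'
  have h1 := h _ (hs A hA) _ (hs A' hA')
    (by rw [card_image_of_injOn (rev_injOn (hB' A hA))]; exact hc)
    (by rw [card_image_of_injOn (rev_injOn (hB' A' hA'))]; exact hc')
  unfold revC at h1
  rw [image_rev_rev (hB' A hA), image_rev_rev (hB' A' hA')] at h1
  exact h1

end Pool.Agent.V11209.FC
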