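import Pool.Agent.V11209.FC.Defs
import Pool.Agent.TH138.NF.Low
import Pool.Agent.Y424.LK.Lower

/-!
# Lower bounds
-/

set_option autoImplicit false

namespace Pool.Agent.V11209.FC

open Finset Pool.Agent.TH138.NF Pool.Agent.Y424.LK

variable {κ : Type}

/-- `A` without its element number `j`. -/
def dropAt (j : ℕ) (A : Finset ℕ) : Finset ℕ := A.filter (fun a => below A a ≠ j)

theorem dropAt_insert {A : Finset ℕ} {x j : ℕ} (hx : x ∉ A) (hj : below A x = j) :
    dropAt j (insert x A) = A := by
  unfold dropAt
  have hself : below (insert x A) x = j := by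
    rw [← hj]
    unfold below
    rw [filter_insert, if_neg (lt_irrefl x)]
  have hne : ∀ a ∈ A, below (insert x A) a ≠ j := by
    intro a ha
    rcases lt_trichotomy a x with h | h | h
    · have h1 : below (insert x A) a = below A a := by
        unfold below
        rw [filter_insert, if_neg (by omega)]
      have h2 : below A a < below A x := by
        unfold below
        apply card_lt_card
        rw [ssubset_iff_of_subset (by
          intro b hb
          rw [mem_filter] at hb ⊢
          exact ⟨hb.1, hb.2.trans h⟩)]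
        exact ⟨a, mem_filter.2 ⟨ha, h⟩, fun hcon => lt_irrefl a (mem_filter.1 hcon).2⟩
      omega
    · exact absurd (h ▸ ha) hx
    · have h1 : below (insert x A) a = below A a + 1 := by
        unfold below
        rw [filter_insert, if_pos h, card_insert_of_notMem (fun hcon => hx (mem_filter.1 hcon).1)]
      have h2 : below A x ≤ below A a := by
        unfold below
        apply card_le_card
        intro b hb
        rw [mem_filter] at hb ⊢
        exact ⟨hb.1, hb.2.trans h⟩
      omega
  ext y
  rw [mem_filter, mem_insert]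
  constructor
  · rintro ⟨rfl | h, h2⟩
    · exact absurd hself h2
    · exact h
  · intro h
    exact ⟨Or.inr h, hne y h⟩

theorem few_drop (c : Finset ℕ → κ) (r j : ℕ) (V : Finset ℕ) :
    FewChanges (fun A => c (dropAt j A)) r j 0 V := by
  intro A hA hc
  refine ⟨fun _ => 0, fun _ => c A, monotone_const, fun _ => le_rfl, fun x hx hxA hb => ?_⟩
  simp only
  rw [dropAt_insert hxA hb]

theorem hom_drop (c : Finset ℕ → κ) (r j N n : ℕ) (hj : j ≤ r)
    (hc : ∀ H ⊆ range N, H.card = n → ¬ Homogeneous r c H) :
    ∀ H ⊆ range N, 2 * n + 1 ≤ H.card → ¬ Homogeneous (r + 1) (fun A => c (dropAt j A)) H := by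
  intro H hH hHc hhom
  obtain ⟨x, hxH, hxm⟩ := enum H
  have hmono : ∀ a b, a ≤ b → b < H.card → x a ≤ x b := by
    intro a b hab hb
    rcases Nat.lt_or_eq_of_le hab with h | h
    · exact (hxm a b h hb).le
    · rw [h]
  have hlt : ∀ a b, a < H.card → b < H.card → (x a < x b ↔ a < b) := by
    intro a b ha hb
    constructor
    · intro h
      by_contra hcon
      exact absurd (hmono b a (not_lt.1 hcon) ha) (by omega)
    · exact fun h => hxm a b h hb
  set H' := (range n).image (fun i => x (2 * i + 1)) with hH'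
  have hmem : ∀ a ∈ H', ∃ i < n, a = x (2 * i + 1) := by
    intro a ha
    obtain ⟨i, hi, rfl⟩ := mem_image.1 ha
    exact ⟨i, mem_range.1 hi, rfl⟩
  have hH'H : H' ⊆ H := by
    intro a ha
    obtain ⟨i, hi, rfl⟩ := hmem a ha
    exact hxH _ (by omega)
  have hH'c : H'.card = n := by
    rw [hH', card_image_of_injOn, card_range]
    intro a ha b hb hab
    rw [coe_range, Set.mem_Iio] at ha hb
    have h1 := hlt (2 * a + 1) (2 * b + 1) (by omega) (by omega)
    have h2 := hlt (2 * b + 1) (2 * a + 1) (by omega) (by omega)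
    simp only at hab
    rw [hab] at h1 h2
    have h3 := (not_congr h1).1 (lt_irrefl _)
    have h4 := (not_congr h2).1 (lt_irrefl _)
    omega
  refine hc H' (hH'H.trans hH) hH'c ?_
  -- a free place
  have free : ∀ A ⊆ H', A.card = r → ∃ y ∈ H, y ∉ A ∧ below A y = j := by
    intro A hA hAc
    have hex : ∃ i, j ≤ below A (x (2 * i)) ∧ i ≤ n := by
      refine ⟨n, ?_, le_rfl⟩
      have : A.filter (fun a => a < x (2 * n)) = A := by
        apply filter_true_of_mem
        intro a ha
        obtain ⟨i, hi, rfl⟩ := hmem a (hA ha)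
        exact hxm _ _ (by omega) (by omega)
      unfold below
      rw [this, hAc]
      exact hj
    set i := Nat.find hex with hi
    obtain ⟨h1, h2⟩ := Nat.find_spec hex
    rw [← hi] at h1 h2
    refine ⟨x (2 * i), hxH _ (by omega), ?_, ?_⟩
    · intro hmemA
      obtain ⟨k, hk, e⟩ := hmem _ (hA hmemA)
      have h3 := hlt (2 * i) (2 * k + 1) (by omega) (by omega)
      have h4 := hlt (2 * k + 1) (2 * i) (by omega) (by omega)
      rw [e] at h3 h4
      have h5 := (not_congr h3).1 (lt_irrefl _)
      have h6 := (not_congr h4).1 (lt_irrefl _)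
      omega
    · apply le_antisymm _ h1
      rcases Nat.eq_zero_or_pos i with h0 | h0
      · rw [h0]
        have : A.filter (fun a => a < x (2 * 0)) = ∅ := by
          apply filter_false_of_mem
          intro a ha
          obtain ⟨k, hk, rfl⟩ := hmem a (hA ha)
          exact not_lt.2 (hmono _ _ (by omega) (by omega))
        unfold below
        rw [this]
        exact Nat.zero_le _
      · have h3 := Nat.find_min hex (show i - 1 < Nat.find hex by omega)
        rw [not_and_or] at h3
        have h4 : below A (x (2 * (i - 1))) < j := by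
          rcases h3 with h3 | h3
          · omega
          · omega
        have h5 : below A (x (2 * i)) ≤ below A (x (2 * (i - 1))) + 1 := by
          unfold below
          have hsub : A.filter (fun a => a < x (2 * i)) ⊆
              insert (x (2 * i - 1)) (A.filter (fun a => a < x (2 * (i - 1)))) := by
            intro a ha
            rw [mem_filter] at ha
            obtain ⟨k, hk, rfl⟩ := hmem a (hA ha.1)
            have h6 := (hlt (2 * k + 1) (2 * i) (by omega) (by omega)).1 ha.2
            rw [mem_insert, mem_filter]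
            rcases Nat.lt_or_ge (k + 1) i with h7 | h7
            · right
              exact ⟨ha.1, hxm _ _ (by omega) (by omega)⟩
            · left
              congr 1
              omega
          exact (card_le_card hsub).trans (card_insert_le _ _)
        omega
  intro A hA B hB hAc hBc
  obtain ⟨y, hy, hyA, hyj⟩ := free A hA hAc
  obtain ⟨z, hz, hzB, hzj⟩ := free B hB hBc
  have h1 := hhom (insert y A) (insert_subset_iff.2 ⟨hy, hA.trans hH'H⟩)
    (insert z B) (insert_subset_iff.2 ⟨hz, hB.trans hH'H⟩)
    (by rw [card_insert_of_notMem hyA, hAc]) (by rw [card_insert_of_notMem hzB, hBc])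
  simp only at h1
  rw [dropAt_insert hyA hyj, dropAt_insert hzB hzj] at h1
  exact h1

theorem Homogeneous.subset {c : Finset ℕ → κ} {r : ℕ} {H H' : Finset ℕ}
    (h : Homogeneous r c H) (hs : H' ⊆ H) : Homogeneous r c H' :=
  fun A hA B hB => h A (hA.trans hs) B (hB.trans hs)

/-- **Lower bound for triples**, two colours. -/
theorem lower_three (m : ℕ) (j : ℕ) (hj : j < 3) : ∃ c : Finset ℕ → Bool,
    FewChanges c 3 j 0 (range (2 ^ m)) ∧
    ∀ H ⊆ range (2 ^ m), 8 * m + 9 ≤ H.card → ¬ Homogeneous 3 c H := by
  classical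
  obtain ⟨χ, hχ⟩ := exists_chi m
  set c : Finset ℕ → Bool := fun A => decide (∃ x ∈ A, ∃ y ∈ A, x < y ∧ χ x y = true) with hc
  have hpair : ∀ x y, x < y → c {x, y} = χ x y := by
    intro x y hxy
    rw [hc]
    simp only
    rw [Bool.eq_iff_iff, decide_eq_true_eq]
    constructor
    · rintro ⟨a, ha, b, hb, hab, h⟩
      simp only [mem_insert, mem_singleton] at ha hb
      rcases ha with rfl | rfl <;> rcases hb with rfl | rfl
      · omega
      · exact h
      · omega
      · omega
    · intro h
      exact ⟨x, by simp, y, by simp, hxy, h⟩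
  refine ⟨fun A => c (dropAt j A), few_drop c 3 j _, ?_⟩
  intro H hH hHc
  refine hom_drop c 2 j (2 ^ m) (4 * m + 4) (by omega) ?_ H hH (by omega)
  intro S hS hSc hhom
  obtain ⟨x, hxS, hxm⟩ := enum S
  rw [hSc] at hxS hxm
  have hinj : ∀ X : Finset ℕ, (∀ i ∈ X, i < 4 * m + 4) → (X.image x).card = X.card := by
    intro X hX
    apply card_image_of_injOn
    intro a ha b hb hab
    rcases lt_trichotomy a b with h | h | h
    · exact absurd hab (hxm a b h (hX b hb)).ne
    · exact h
    · exact absurd hab (hxm b a h (hX a ha)).ne'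
  have hlt : ∀ i < 4 * m + 4, x i < 2 ^ m := fun i hi => mem_range.1 (hS (hxS i hi))
  obtain ⟨a, ha, b, hb, hne⟩ := hχ ((range (2 * m + 2)).image x)
    ((Ico (2 * m + 2) (4 * m + 4)).image x)
    (by
      intro a ha
      obtain ⟨i, hi, rfl⟩ := mem_image.1 ha
      exact hlt _ (by rw [mem_range] at hi; omega))
    (by
      intro a ha
      obtain ⟨i, hi, rfl⟩ := mem_image.1 ha
      exact hlt _ (by rw [mem_Ico] at hi; omega))
    (by rw [hinj _ (fun i hi => by rw [mem_range] at hi; omega), card_range])
    (by rw [hinj _ (fun i hi => by rw [mem_Ico] at hi; omega), Nat.card_Ico]; omega)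
    (c {x 0, x 1})
  obtain ⟨i, hi, rfl⟩ := mem_image.1 ha
  obtain ⟨k, hk, rfl⟩ := mem_image.1 hb
  rw [mem_range] at hi
  rw [mem_Ico] at hk
  have hik : x i < x k := hxm i k (by omega) (by omega)
  apply hne
  rw [← hpair _ _ hik]
  have h01 : x 0 < x 1 := hxm 0 1 (by omega) (by omega)
  apply hhom
  · intro y hy
    simp only [mem_insert, mem_singleton] at hy
    rcases hy with rfl | rfl
    · exact hxS i (by omega)
    · exact hxS k (by omega)
  · intro y hy
    simp only [mem_insert, mem_singleton] at hy
    rcases hy with rfl | rfl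
    · exact hxS 0 (by omega)
    · exact hxS 1 (by omega)
  · exact card_pair hik.ne
  · exact card_pair h01.ne

theorem tow_mono (k : ℕ) {x y : ℝ} (h : x ≤ y) : tow k x ≤ tow k y := by
  induction k with
  | zero => exact h
  | succ k ih => exact Real.rpow_le_rpow_of_exponent_le (by norm_num) ih

/-- **Lower bound**, four colours, all uniformities. -/
theorem lower_four (s : ℕ) : ∃ C : ℕ, 1 ≤ C ∧ ∀ n : ℕ, C ≤ n → ∀ j < s + 4,
    ∃ (N : ℕ) (c : Finset ℕ → Bool × Bool), tow (s + 2) ((n : ℝ) / C) ≤ N ∧
      FewChanges c (s + 4) j 0 (range N) ∧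
      ∀ H ⊆ range N, H.card = n → ¬ Homogeneous (s + 4) c H := by
  classical
  obtain ⟨C, hC, h⟩ := four s
  have hCpos : 0 < C := hC
  refine ⟨32 * C ^ 2, Nat.succ_le_of_lt (by positivity), ?_⟩
  intro n hn j hj
  set n₀ := (n - 1) / 2 with hn₀
  set d := n₀ / (2 * C) with hd
  have hC2 : C ≤ C ^ 2 := by nlinarith
  have hn₀1 : 2 * n₀ + 1 ≤ n := by omega
  have hn₀2 : n ≤ 2 * n₀ + 2 := by omega
  have hd1 : d * (2 * C) ≤ n₀ := Nat.div_mul_le_self _ _
  have hd2 : n₀ < (d + 1) * (2 * C) := by
    rw [hd, add_mul, one_mul]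
    exact Nat.lt_div_mul_add (by omega)
  have hdC : C ≤ d := by
    by_contra hcon
    push Not at hcon
    have h1 : (d + 1) * (2 * C) ≤ C * (2 * C) := Nat.mul_le_mul_right _ hcon
    nlinarith
  obtain ⟨N, c, h1, h2, -⟩ := h d n₀ hdC (by nlinarith)
  refine ⟨N, fun A => c (dropAt j A), le_trans (tow_mono _ ?_) h1, few_drop c _ j _, ?_⟩
  · have hCr : (1 : ℝ) ≤ C := by exact_mod_cast hC
    have hdr : (C : ℝ) ≤ d := by exact_mod_cast hdC
    have hd0 : (0 : ℝ) < d := by linarith
    have hlog : 1 ≤ Real.logb 2 ((n₀ : ℝ) / d) := by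
      rw [Real.le_logb_iff_rpow_le (by norm_num) (by
        apply div_pos _ hd0
        have h3 : (d : ℝ) * (2 * C) ≤ n₀ := by exact_mod_cast hd1
        have : (0 : ℝ) < (d : ℝ) * (2 * C) := by positivity
        linarith), Real.rpow_one, le_div_iff₀ hd0]
      have h3 : (d : ℝ) * (2 * C) ≤ n₀ := by exact_mod_cast hd1
      nlinarith
    have hnr : (n : ℝ) ≤ 2 * n₀ + 2 := by exact_mod_cast hn₀2
    have hd2r : (n₀ : ℝ) < (d + 1) * (2 * C) := by exact_mod_cast hd2
    have h5 : (n : ℝ) ≤ 32 * C * d := by nlinarith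
    calc (n : ℝ) / ((32 * C ^ 2 : ℕ) : ℝ) ≤ 1 / C * d := by
          push_cast
          rw [div_le_iff₀ (by positivity)]
          have : 1 / (C : ℝ) * d * (32 * C ^ 2) = 32 * C * d := by
            field_simp
          rw [this]
          exact h5
      _ ≤ 1 / C * (d * Real.logb 2 ((n₀ : ℝ) / d)) := by
          apply mul_le_mul_of_nonneg_left _ (by positivity)
          nlinarith
  · intro H hH hHc
    exact hom_drop c (s + 3) j N n₀ (by omega) h2 H hH (by omega)

end Pool.Agent.V11209.FC
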