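import Pool.Agent.V11209.FC.Lower

/-!
# Colourings one coordinate of which can be learned online
-/

set_option autoImplicit false

namespace Pool.Agent.V11209.FC

open Finset Pool.Agent.TH138.NF

variable {κ : Type}

/-- The vertices `x` of `W` outside `A`, above exactly `j` elements of `A`, such that `A ∪ {x}` has
the colour `a`. -/
noncomputable def part (c : Finset ℕ → κ) (j : ℕ) (W A : Finset ℕ) (a : κ) : Finset ℕ :=
  open Classical in W.filter (fun x => x ∉ A ∧ below A x = j ∧ c (insert x A) = a)

/-- There is no complete binary tree of depth `d`, the inner nodes of which are labelled by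
`(r - 1)`-subsets `A` of `V` and by two different colours, one for each child, such that for each leaf
there is a vertex `x` of `W` which agrees with the branch of the leaf: for each node on the branch
`x` is outside the set `A` of the node, above exactly `j` elements of it, and `A ∪ {x}` has the
colour of the child. (For the unlabelled tree of depth `0` this means that `W` is empty; the
largest depth of a tree is the Littlestone dimension, the number of mistakes in online
learning of the colour.) -/
def NoTree (c : Finset ℕ → κ) (r j : ℕ) (V : Finset ℕ) : ℕ → Finset ℕ → Prop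
  | 0, W => W = ∅
  | d + 1, W => ∀ A ⊆ V, A.card + 1 = r → ∀ a b : κ, a ≠ b →
      NoTree c r j V d (part c j W A a) ∨ NoTree c r j V d (part c j W A b)

theorem mem_part {c : Finset ℕ → κ} {j : ℕ} {W A : Finset ℕ} {a : κ} {x : ℕ} :
    x ∈ part c j W A a ↔ x ∈ W ∧ x ∉ A ∧ below A x = j ∧ c (insert x A) = a := by
  classical
  unfold part
  rw [mem_filter]

theorem part_mono (c : Finset ℕ → κ) (j : ℕ) {W W' : Finset ℕ} (h : W' ⊆ W) (A : Finset ℕ) (a : κ) :
    part c j W' A a ⊆ part c j W A a := by
  intro x hx
  rw [mem_part] at hx ⊢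
  exact ⟨h hx.1, hx.2⟩

theorem NoTree.mono {c : Finset ℕ → κ} {r j : ℕ} {V V' : Finset ℕ} (hV : V' ⊆ V) :
    ∀ {d : ℕ} {W W' : Finset ℕ}, NoTree c r j V d W → W' ⊆ W → NoTree c r j V' d W'
  | 0, W, W', h, hW => by
    unfold NoTree at h ⊢
    rw [h] at hW
    exact subset_empty.1 hW
  | d + 1, W, W', h, hW => by
    intro A hA hAc a b hab
    rcases h A (hA.trans hV) hAc a b hab with h | h
    · exact Or.inl (h.mono hV (part_mono c j hW A a))
    · exact Or.inr (h.mono hV (part_mono c j hW A b))

/-- adding a last vertex -/
theorem NoTree.top {c : Finset ℕ → κ} {r j : ℕ} {V U : Finset ℕ} (hU : U ⊆ V) {w : ℕ} (hw : w ∈ V)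
    (hlt : ∀ u ∈ U, u < w) : ∀ {d : ℕ} {W : Finset ℕ}, W ⊆ U → NoTree c (r + 1) j V d W →
    NoTree (fun A => c (insert w A)) r j U d W
  | 0, W, hW, h => h
  | d + 1, W, hW, h => by
    intro A hA hAc a b hab
    have hwA : w ∉ A := fun h => (hlt w (hA h)).ne rfl
    have key : ∀ e, part c j W (insert w A) e = part (fun A => c (insert w A)) j W A e := by
      intro e
      ext x
      rw [mem_part, mem_part]
      refine and_congr_right (fun hx => ?_)
      have hxw : x < w := hlt x (hW hx)
      have h1 : x ∉ insert w A ↔ x ∉ A := by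
        rw [mem_insert, not_or]
        exact ⟨fun h => h.2, fun h => ⟨hxw.ne, h⟩⟩
      have h2 : below (insert w A) x = below A x := by
        unfold below
        rw [filter_insert, if_neg (by omega)]
      rw [h1, h2, insert_comm]
    have hs : ∀ e, part (fun A => c (insert w A)) j W A e ⊆ U := by
      intro e x hx
      exact hW (mem_part.1 hx).1
    rcases h (insert w A) (insert_subset_iff.2 ⟨hw, hA.trans hU⟩)
      (by rw [card_insert_of_notMem hwA]; omega) a b hab with h | h
    · rw [key] at h
      exact Or.inl (NoTree.top hU hw hlt (hs a) h)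
    · rw [key] at h
      exact Or.inr (NoTree.top hU hw hlt (hs b) h)

theorem notree_const (a₀ : κ) (r j d : ℕ) (V W : Finset ℕ) (hd : 1 ≤ d) :
    NoTree (fun _ => a₀) r j V d W := by
  obtain ⟨d, rfl⟩ : ∃ e, d = e + 1 := ⟨d - 1, by omega⟩
  have hempty : ∀ (d : ℕ) (c : Finset ℕ → κ), NoTree c r j V d ∅ := by
    intro d
    induction d with
    | zero => intro c; rfl
    | succ d ih =>
      intro c A _ _ a b _
      left
      have : part c j ∅ A a = ∅ := by
        ext x
        rw [mem_part]
        simp
      rw [this]
      exact ih c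
  intro A hA hAc a b hab
  by_cases h : a₀ = a
  · right
    have : part (fun _ => a₀) j W A b = ∅ := by
      ext x
      rw [mem_part]
      constructor
      · rintro ⟨-, -, -, h2⟩
        exact absurd (h.symm.trans h2) hab
      · intro hx
        simp at hx
    rw [this]
    exact hempty d _
  · left
    have : part (fun _ => a₀) j W A a = ∅ := by
      ext x
      rw [mem_part]
      constructor
      · rintro ⟨-, -, -, h2⟩
        exact absurd h2 h
      · intro hx
        simp at hx
    rw [this]
    exact hempty d _

/-- The main step: the colour becomes independent of the last vertex. -/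
theorem online_step [Fintype κ] (k m : ℕ) (hk : 1 ≤ k) (hm : 1 ≤ m) (V : Finset ℕ)
    (c : Finset ℕ → κ) : ∀ (d : ℕ) (W₀ : Finset ℕ), W₀ ⊆ V → NoTree c (k + 1) k V d W₀ →
    (2 * Fintype.card κ * m ^ k) ^ d ≤ W₀.card →
    ∃ U ⊆ V, ∃ w ∈ V, U.card = m ∧ (∀ u ∈ U, u < w) ∧
      ∀ A ⊆ U, A.card = k + 1 → ∃ A' ⊆ A, A'.card = k ∧ c A = c (insert w A') := by
  classical
  have hκ : 0 < Fintype.card κ := Fintype.card_pos_iff.2 ⟨c ∅⟩
  intro d
  induction d with
  | zero =>
    intro W₀ _ hN hc
    unfold NoTree at hN
    rw [hN] at hc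
    simp at hc
  | succ d ih =>
    intro W₀ hW₀ hN hc
    set q := Fintype.card κ with hq
    set F := (2 * q * m ^ k) ^ d with hF
    have hF1 : 1 ≤ F := Nat.one_le_iff_ne_zero.2 (by positivity)
    by_cases hbig : ∃ A ⊆ V, A.card = k ∧ ∃ b, NoTree c (k + 1) k V d (part c k W₀ A b) ∧
        F ≤ (part c k W₀ A b).card
    · obtain ⟨A, -, -, b, h1, h2⟩ := hbig
      exact ih (part c k W₀ A b) (fun x hx => hW₀ (mem_part.1 hx).1) h1 h2
    push Not at hbig
    -- the majority colours
    have hmaj : ∀ A ⊆ V, A.card = k → ∃ a : κ, ∀ b, b ≠ a → (part c k W₀ A b).card < F := by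
      intro A hA hAc
      by_cases hex : ∃ a, ¬ NoTree c (k + 1) k V d (part c k W₀ A a)
      · obtain ⟨a, ha⟩ := hex
        refine ⟨a, fun b hb => ?_⟩
        rcases hN A hA (by rw [hAc]) a b hb.symm with h | h
        · exact absurd h ha
        · exact hbig A hA hAc b h
      · push Not at hex
        exact ⟨c ∅, fun b _ => hbig A hA hAc b (hex b)⟩
    have main : ∀ i ≤ m, ∃ R W : Finset ℕ, R ⊆ V ∧ W ⊆ W₀ ∧ R.card = i ∧ (∀ u ∈ R, ∀ w ∈ W, u < w) ∧
        W₀.card ≤ W.card + i * (1 + q * m ^ (k - 1) * (F - 1)) ∧
        ∀ A ⊆ R, A.card = k → ∀ x ∈ R ∪ W, ∀ y ∈ R ∪ W, (∀ a ∈ A, a < x) → (∀ a ∈ A, a < y) →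
          c (insert x A) = c (insert y A) := by
      intro i
      induction i with
      | zero =>
        intro _
        refine ⟨∅, W₀, empty_subset _, Subset.rfl, rfl, by simp, by omega, ?_⟩
        intro A hA hAc
        rw [subset_empty.1 hA, card_empty] at hAc
        omega
      | succ i ihi =>
        intro hi
        obtain ⟨R, W, hR, hW, hRc, hRW, hcard, hhom⟩ := ihi (by omega)
        have hpow : m * m ^ (k - 1) = m ^ k := by
          rw [← pow_succ']
          congr 1
          omega
        have hWpos : W.Nonempty := by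
          rw [← card_pos]
          by_contra hcon
          have h0 : W.card = 0 := by omega
          rw [h0, zero_add] at hcard
          have h1 : i * (1 + q * m ^ (k - 1) * (F - 1)) ≤ m * (1 + q * m ^ (k - 1) * (F - 1)) :=
            Nat.mul_le_mul_right _ (by omega)
          have h2 : m * (1 + q * m ^ (k - 1) * (F - 1)) = m + q * m ^ k * (F - 1) := by
            rw [← hpow]
            ring
          have h3 : m ≤ q * m ^ k := by
            calc m = m ^ 1 := (pow_one m).symm
              _ ≤ m ^ k := Nat.pow_le_pow_right hm hk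
              _ ≤ q * m ^ k := Nat.le_mul_of_pos_left _ hκ
          have h4 : (2 * q * m ^ k) ^ (d + 1) = 2 * (q * m ^ k) * F := by
            rw [pow_succ, ← hF]
            ring
          rw [h4] at hc
          obtain ⟨F', hF'⟩ : ∃ F', F = F' + 1 := ⟨F - 1, by omega⟩
          rw [hF'] at hc h1 h2 hcard
          simp only [Nat.add_sub_cancel] at h1 h2 hcard
          have h5 : 0 < q * m ^ k := by positivity
          nlinarith
        obtain ⟨v, hv, hvmin⟩ := exists_min_image W id hWpos
        simp only [id] at hvmin
        have hvV : v ∈ V := hW₀ (hW hv)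
        -- the new sets
        set 𝒜 := (R.powersetCard (k - 1)).image (fun B => insert v B) with h𝒜
        have hvR : v ∉ R := fun h => (hRW v h v hv).ne rfl
        have h𝒜V : ∀ A ∈ 𝒜, A ⊆ V ∧ A.card = k := by
          intro A hA
          obtain ⟨B, hB, rfl⟩ := mem_image.1 hA
          obtain ⟨hBR, hBc⟩ := mem_powersetCard.1 hB
          refine ⟨insert_subset_iff.2 ⟨hvV, hBR.trans hR⟩, ?_⟩
          rw [card_insert_of_notMem (fun h => hvR (hBR h)), hBc]
          omega
        have hex : ∀ A : Finset ℕ, ∃ a : κ, A ⊆ V → A.card = k →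
            ∀ b, b ≠ a → (part c k W₀ A b).card < F := by
          intro A
          by_cases h : A ⊆ V ∧ A.card = k
          · obtain ⟨a, ha⟩ := hmaj A h.1 h.2
            exact ⟨a, fun _ _ => ha⟩
          · exact ⟨c ∅, fun h1 h2 => absurd ⟨h1, h2⟩ h⟩
        choose maj hmaj' using hex
        set Bad := 𝒜.biUnion (fun A => (univ.filter (fun b : κ => b ≠ maj A)).biUnion
          (fun b => part c k W₀ A b)) with hBad
        have hBadc : Bad.card ≤ q * m ^ (k - 1) * (F - 1) := by
          have h1 : ∀ A ∈ 𝒜, ((univ.filter (fun b : κ => b ≠ maj A)).biUnion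
              (fun b => part c k W₀ A b)).card ≤ q * (F - 1) := by
            intro A hA
            refine (card_biUnion_le_card_mul _ _ (F - 1) ?_).trans ?_
            · intro b hb
              have := hmaj' A (h𝒜V A hA).1 (h𝒜V A hA).2 b (mem_filter.1 hb).2
              omega
            · apply Nat.mul_le_mul_right
              exact (card_le_univ _)
          refine (card_biUnion_le_card_mul _ _ (q * (F - 1)) h1).trans ?_
          have h2 : 𝒜.card ≤ m ^ (k - 1) := by
            refine card_image_le.trans ?_
            rw [card_powersetCard, hRc]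
            exact (Nat.choose_le_pow i (k - 1)).trans (Nat.pow_le_pow_left (by omega) _)
          calc 𝒜.card * (q * (F - 1)) ≤ m ^ (k - 1) * (q * (F - 1)) := Nat.mul_le_mul_right _ h2
            _ = q * m ^ (k - 1) * (F - 1) := by ring
        set W' := (W.erase v) \ Bad with hW'
        have hW'W : W' ⊆ W := sdiff_subset.trans (erase_subset _ _)
        have hvW' : ∀ w ∈ W', v < w := by
          intro w hw
          have h1 := mem_erase.1 (mem_sdiff.1 hw).1
          exact lt_of_le_of_ne (hvmin w h1.2) h1.1.symm
        refine ⟨insert v R, W', insert_subset_iff.2 ⟨hvV, hR⟩, hW'W.trans hW, ?_, ?_, ?_, ?_⟩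
        · rw [card_insert_of_notMem hvR, hRc]
        · intro u hu w hw
          rcases mem_insert.1 hu with rfl | hu
          · exact hvW' w hw
          · exact hRW u hu w (hW'W hw)
        · have h1 : (W.erase v).card ≤ W'.card + Bad.card := by
            have := card_le_card_sdiff_add_card (s := W.erase v) (t := Bad)
            exact this
          have h2 : (W.erase v).card + 1 = W.card := card_erase_add_one hv
          have h3 : (i + 1) * (1 + q * m ^ (k - 1) * (F - 1)) =
              i * (1 + q * m ^ (k - 1) * (F - 1)) + (1 + q * m ^ (k - 1) * (F - 1)) := by ring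
          omega
        · intro A hA hAc x hx y hy hxA hyA
          by_cases hvA : v ∈ A
          · have hA𝒜 : A ∈ 𝒜 := by
              rw [h𝒜, mem_image]
              refine ⟨A.erase v, mem_powersetCard.2 ⟨?_, ?_⟩, insert_erase hvA⟩
              · intro u hu
                obtain ⟨h1, h2⟩ := mem_erase.1 hu
                exact (mem_insert.1 (hA h2)).resolve_left h1
              · rw [card_erase_of_mem hvA, hAc]
            have key : ∀ x ∈ insert v R ∪ W', (∀ a ∈ A, a < x) → c (insert x A) = maj A := by
              intro x hx hxA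
              have hvx := hxA v hvA
              have hxW' : x ∈ W' := by
                rcases mem_union.1 hx with h | h
                · rcases mem_insert.1 h with h | h
                  · omega
                  · have := hRW x h v hv
                    omega
                · exact h
              by_contra hcon
              apply (mem_sdiff.1 hxW').2
              rw [hBad, mem_biUnion]
              refine ⟨A, hA𝒜, ?_⟩
              rw [mem_biUnion]
              refine ⟨c (insert x A), mem_filter.2 ⟨mem_univ _, hcon⟩, ?_⟩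
              rw [mem_part]
              refine ⟨hW (hW'W hxW'), fun h => (hxA x h).ne rfl, ?_, rfl⟩
              unfold below
              rw [filter_true_of_mem hxA, hAc]
            rw [key x hx hxA, key y hy hyA]
          · have hAR : A ⊆ R := fun u hu => (mem_insert.1 (hA hu)).resolve_left
              (fun h => hvA (h ▸ hu))
            have hsub : insert v R ∪ W' ⊆ R ∪ W := by
              intro u hu
              rcases mem_union.1 hu with h | h
              · rcases mem_insert.1 h with rfl | h
                · exact mem_union_right _ hv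
                · exact mem_union_left _ h
              · exact mem_union_right _ (hW'W h)
            exact hhom A hAR hAc x (hsub hx) y (hsub hy) hxA hyA
    obtain ⟨R, W, hR, hW, hRc, hRW, hcard, hhom⟩ := main m le_rfl
    have hpow : m * m ^ (k - 1) = m ^ k := by
      rw [← pow_succ']
      congr 1
      omega
    have hWpos : W.Nonempty := by
      rw [← card_pos]
      by_contra hcon
      have h0 : W.card = 0 := by omega
      rw [h0, zero_add] at hcard
      have h2 : m * (1 + q * m ^ (k - 1) * (F - 1)) = m + q * m ^ k * (F - 1) := by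
        rw [← hpow]
        ring
      have h3 : m ≤ q * m ^ k := by
        calc m = m ^ 1 := (pow_one m).symm
          _ ≤ m ^ k := Nat.pow_le_pow_right hm hk
          _ ≤ q * m ^ k := Nat.le_mul_of_pos_left _ hκ
      have h4 : (2 * q * m ^ k) ^ (d + 1) = 2 * (q * m ^ k) * F := by
        rw [pow_succ, ← hF]
        ring
      rw [h4] at hc
      obtain ⟨F', hF'⟩ : ∃ F', F = F' + 1 := ⟨F - 1, by omega⟩
      rw [hF'] at hc h2 hcard
      simp only [Nat.add_sub_cancel] at h2 hcard
      have h5 : 0 < q * m ^ k := by positivity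
      nlinarith
    obtain ⟨w, hw⟩ := hWpos
    refine ⟨R, hR, w, hW₀ (hW hw), hRc, fun u hu => hRW u hu w hw, ?_⟩
    intro A hA hAc
    have hAne : A.Nonempty := by
      rw [← card_pos]
      omega
    obtain ⟨x, hx, hxmax⟩ := exists_max_image A id hAne
    simp only [id] at hxmax
    refine ⟨A.erase x, erase_subset _ _, by rw [card_erase_of_mem hx]; omega, ?_⟩
    have h1 := hhom (A.erase x) ((erase_subset _ _).trans hA) (by rw [card_erase_of_mem hx]; omega)
      x (mem_union_left _ (hA hx)) w (mem_union_right _ hw) (by
        intro a ha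
        obtain ⟨h1, h2⟩ := mem_erase.1 ha
        exact lt_of_le_of_ne (hxmax a h2) h1) (by
        intro a ha
        exact hRW a (hA (mem_erase.1 ha).2) w hw)
    rw [← h1, insert_erase hx]

/-- The numbers of vertices. -/
def NL (q k₀ d M : ℕ) : ℕ → ℕ
  | 0 => M
  | s + 1 => (2 * q * (NL q k₀ d M s) ^ (k₀ + s)) ^ d

/-- Iteration. -/
theorem online_iter (κ : Type) [Fintype κ] {k₀ n M d : ℕ} (hk : 1 ≤ k₀) (hM1 : 1 ≤ M)
    (hM : ∀ (V : Finset ℕ) (c : Finset ℕ → κ), M ≤ V.card →
      ∃ H ⊆ V, H.card = n ∧ Homogeneous k₀ c H) :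
    ∀ (s : ℕ) (V : Finset ℕ) (c : Finset ℕ → κ),
      (∀ j, k₀ ≤ j → j < k₀ + s → NoTree c (k₀ + s) j V d V) →
      NL (Fintype.card κ) k₀ d M s ≤ V.card →
      1 ≤ NL (Fintype.card κ) k₀ d M s ∧ ∃ H ⊆ V, H.card = n ∧ Homogeneous (k₀ + s) c H := by
  intro s
  induction s with
  | zero =>
    intro V c _ hV
    exact ⟨hM1, hM V c hV⟩
  | succ s ih =>
    intro V c hc hV
    have hκ : 0 < Fintype.card κ := Fintype.card_pos_iff.2 ⟨c ∅⟩
    have hpos : 1 ≤ NL (Fintype.card κ) k₀ d M s := by
      refine (ih (range (NL (Fintype.card κ) k₀ d M s)) (fun _ => c ∅) ?_ (by rw [card_range])).1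
      intro j _ _
      exact notree_const _ _ _ _ _ _ (by
        by_contra hd
        have hd0 : d = 0 := by omega
        have h1 := hc (k₀ + s) (by omega) (by omega)
        rw [hd0] at h1
        unfold NoTree at h1
        rw [h1] at hV
        simp only [NL, hd0, pow_zero, card_empty] at hV
        omega)
    refine ⟨Nat.one_le_iff_ne_zero.2 (by
      show (2 * Fintype.card κ * (NL (Fintype.card κ) k₀ d M s) ^ (k₀ + s)) ^ d ≠ 0
      positivity), ?_⟩
    obtain ⟨U, hU, w, hw, hUc, hlt, hA⟩ := online_step (k₀ + s) (NL (Fintype.card κ) k₀ d M s)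
      (by omega) hpos V c d V Subset.rfl (hc (k₀ + s) (by omega) (by omega)) hV
    obtain ⟨-, H, hH, hHc, hHh⟩ := ih U (fun A => c (insert w A)) (by
      intro j hj1 hj2
      refine NoTree.top hU hw hlt Subset.rfl ?_
      exact (hc j hj1 (by omega)).mono Subset.rfl hU) (le_of_eq hUc.symm)
    refine ⟨H, hH.trans hU, hHc, ?_⟩
    intro A hAH B hBH hAc hBc
    obtain ⟨A', hA', hAc', eA⟩ := hA A (hAH.trans hH) hAc
    obtain ⟨B', hB', hBc', eB⟩ := hA B (hBH.trans hH) hBc
    rw [eA, eB]
    exact hHh A' (hA'.trans hAH) B' (hB'.trans hBH) hAc' hBc'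

end Pool.Agent.V11209.FC
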