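import Pool.Agent.V11209.FC.Online

/-!
# Colourings some coordinates of which can be learned online: final form
-/

set_option autoImplicit false

namespace Pool.Agent.V11209.FC

open Finset Pool.Agent.TH138.NF

variable {κ : Type}

theorem NL_pos (q k₀ d M : ℕ) (hq : 1 ≤ q) (hM : 1 ≤ M) : ∀ s, 1 ≤ NL q k₀ d M s
  | 0 => hM
  | s + 1 => by
    have := NL_pos q k₀ d M hq hM s
    refine Nat.one_le_iff_ne_zero.2 ?_
    show (2 * q * (NL q k₀ d M s) ^ (k₀ + s)) ^ d ≠ 0
    positivity

theorem NL_le (q k₀ d M : ℕ) (hq : 1 ≤ q) (hM : 1 ≤ M) (hk : 1 ≤ k₀) (hd : 1 ≤ d) (r : ℕ) :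
    ∀ s, k₀ + s ≤ r → 2 * q * NL q k₀ d M s ≤ (2 * q * M) ^ ((r * d) ^ s)
  | 0 => fun _ => by
    rw [pow_zero, pow_one]
    exact le_rfl
  | s + 1 => fun h => by
    have ih := NL_le q k₀ d M hq hM hk hd r s (by omega)
    have hX := NL_pos q k₀ d M hq hM s
    set X := NL q k₀ d M s with hXd
    have hY : 1 ≤ 2 * q * X := Nat.one_le_iff_ne_zero.2 (by positivity)
    have h1 : 2 * q * X ^ (k₀ + s) ≤ (2 * q * X) ^ (k₀ + s) := by
      rw [mul_pow]
      apply Nat.mul_le_mul_right
      exact Nat.le_self_pow (by omega) _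
    have h2 : (k₀ + s) * d + 1 ≤ r * d := by
      calc (k₀ + s) * d + 1 ≤ (k₀ + s) * d + d := by omega
        _ = (k₀ + (s + 1)) * d := by ring
        _ ≤ r * d := Nat.mul_le_mul_right _ h
    show 2 * q * (2 * q * X ^ (k₀ + s)) ^ d ≤ _
    calc 2 * q * (2 * q * X ^ (k₀ + s)) ^ d ≤ (2 * q * X) * ((2 * q * X) ^ (k₀ + s)) ^ d :=
          Nat.mul_le_mul (Nat.le_mul_of_pos_right _ hX) (Nat.pow_le_pow_left h1 _)
      _ = (2 * q * X) ^ ((k₀ + s) * d + 1) := by
          rw [← pow_mul, pow_succ']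
      _ ≤ (2 * q * X) ^ (r * d) := Nat.pow_le_pow_right hY h2
      _ ≤ ((2 * q * M) ^ ((r * d) ^ s)) ^ (r * d) := Nat.pow_le_pow_left ih _
      _ = (2 * q * M) ^ ((r * d) ^ (s + 1)) := by
          rw [← pow_mul, pow_succ]

/-- **Upper bound.** -/
theorem online_upper (κ : Type) [Fintype κ] {k₀ n M d s : ℕ} (hk : 1 ≤ k₀) (hM1 : 1 ≤ M)
    (hd : 1 ≤ d)
    (hM : ∀ (V : Finset ℕ) (c : Finset ℕ → κ), M ≤ V.card →
      ∃ H ⊆ V, H.card = n ∧ Homogeneous k₀ c H)
    (V : Finset ℕ) (c : Finset ℕ → κ)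
    (hc : ∀ j, k₀ ≤ j → j < k₀ + s → NoTree c (k₀ + s) j V d V)
    (hV : (2 * Fintype.card κ * M) ^ (((k₀ + s) * d) ^ s) ≤ V.card) :
    ∃ H ⊆ V, H.card = n ∧ Homogeneous (k₀ + s) c H := by
  have hκ : 1 ≤ Fintype.card κ := Fintype.card_pos_iff.2 ⟨c ∅⟩
  refine (online_iter κ hk hM1 hM s V c hc ?_).2
  have h1 := NL_le (Fintype.card κ) k₀ d M hκ hM1 hk hd (k₀ + s) s le_rfl
  refine le_trans ?_ (h1.trans hV)
  exact Nat.le_mul_of_pos_left _ (by omega)

/-- the first elements -/
def low (k₀ : ℕ) (A : Finset ℕ) : Finset ℕ := A.filter (fun a => below A a < k₀)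

theorem low_insert {A : Finset ℕ} {x k₀ : ℕ} (hx : x ∉ A) (hj : k₀ ≤ below A x) :
    low k₀ (insert x A) = low k₀ A := by
  have hself : below (insert x A) x = below A x := by
    unfold below
    rw [filter_insert, if_neg (lt_irrefl x)]
  have hiff : ∀ a ∈ A, (below (insert x A) a < k₀ ↔ below A a < k₀) := by
    intro a ha
    rcases lt_trichotomy a x with h | h | h
    · have h1 : below (insert x A) a = below A a := by
        unfold below
        rw [filter_insert, if_neg (by omega)]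
      rw [h1]
    · exact absurd (h ▸ ha) hx
    · have h1 : below (insert x A) a = below A a + 1 := by
        unfold below
        rw [filter_insert, if_pos h, card_insert_of_notMem (fun hcon => hx (mem_filter.1 hcon).1)]
      have h2 : below A x ≤ below A a := by
        unfold below
        apply card_le_card
        intro b hb
        rw [mem_filter] at hb ⊢
        exact ⟨hb.1, hb.2.trans h⟩
      omega
  unfold low
  ext y
  rw [mem_filter, mem_filter, mem_insert]
  constructor
  · rintro ⟨rfl | h, h2⟩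
    · omega
    · exact ⟨h, (hiff y h).1 h2⟩
  · rintro ⟨h, h2⟩
    exact ⟨Or.inr h, (hiff y h).2 h2⟩

theorem notree_low (c : Finset ℕ → κ) (k₀ r j : ℕ) (hj : k₀ ≤ j) (V W : Finset ℕ) :
    NoTree (fun A => c (low k₀ A)) r j V 1 W := by
  intro A hA hAc a b hab
  have key : ∀ e, c (low k₀ A) ≠ e → part (fun A => c (low k₀ A)) j W A e = ∅ := by
    intro e he
    ext x
    rw [mem_part]
    constructor
    · rintro ⟨-, h1, h2, h3⟩
      rw [low_insert h1 (by omega)] at h3
      exact absurd h3 he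
    · intro hx
      simp at hx
  by_cases h : c (low k₀ A) = a
  · right
    exact key b (fun h' => hab (h.symm.trans h'))
  · left
    exact key a h

theorem split_top (H : Finset ℕ) (n s : ℕ) (h : H.card = n + s) : ∃ A ⊆ H, ∃ T ⊆ H, A.card = n ∧
    T.card = s ∧ ∀ a ∈ A, ∀ t ∈ T, a < t := by
  obtain ⟨x, hx, hxm⟩ := enum H
  have hinj : ∀ X : Finset ℕ, (∀ i ∈ X, i < H.card) → (X.image x).card = X.card := by
    intro X hX
    apply card_image_of_injOn
    intro a ha b hb hab
    rcases lt_trichotomy a b with h | h | h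
    · exact absurd hab (hxm a b h (hX b hb)).ne
    · exact h
    · exact absurd hab (hxm b a h (hX a ha)).ne'
  refine ⟨(range n).image x, ?_, (Ico n (n + s)).image x, ?_, ?_, ?_, ?_⟩
  · intro y hy
    obtain ⟨i, hi, rfl⟩ := mem_image.1 hy
    exact hx i (by have := mem_range.1 hi; omega)
  · intro y hy
    obtain ⟨i, hi, rfl⟩ := mem_image.1 hy
    exact hx i (by have := mem_Ico.1 hi; omega)
  · rw [hinj _ (fun i hi => by have := mem_range.1 hi; omega), card_range]
  · rw [hinj _ (fun i hi => by have := mem_Ico.1 hi; omega), Nat.card_Ico]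
    omega
  · intro a ha t ht
    obtain ⟨i, hi, rfl⟩ := mem_image.1 ha
    obtain ⟨l, hl, rfl⟩ := mem_image.1 ht
    have h1 := mem_range.1 hi
    have h2 := mem_Ico.1 hl
    exact hxm i l (by omega) (by omega)

/-- **Lower bound.** -/
theorem online_lower (c : Finset ℕ → κ) (k₀ s N n : ℕ)
    (hc : ∀ H ⊆ range N, H.card = n → ¬ Homogeneous k₀ c H) :
    ∃ c' : Finset ℕ → κ,
      (∀ j, k₀ ≤ j → NoTree c' (k₀ + s) j (range N) 1 (range N)) ∧
      ∀ H ⊆ range N, H.card = n + s → ¬ Homogeneous (k₀ + s) c' H := by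
  refine ⟨fun A => c (low k₀ A), fun j hj => notree_low c k₀ _ j hj _ _, ?_⟩
  intro H hH hHc hhom
  obtain ⟨A₀, hA₀, T, hT, hA₀c, hTc, hlt⟩ := split_top H n s hHc
  refine hc A₀ (hA₀.trans hH) hA₀c ?_
  have hdis : ∀ A ⊆ A₀, Disjoint A T := by
    intro A hA
    rw [disjoint_left]
    intro x hx hxT
    exact (hlt x (hA hx) x hxT).ne rfl
  have key : ∀ A ⊆ A₀, A.card = k₀ → low k₀ (A ∪ T) = A := by
    intro A hA hAc
    unfold low
    ext y
    rw [mem_filter, mem_union]
    constructor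
    · rintro ⟨h | h, h2⟩
      · exact h
      · exfalso
        have : k₀ ≤ below (A ∪ T) y := by
          rw [← hAc]
          unfold below
          apply card_le_card
          intro a ha
          rw [mem_filter]
          exact ⟨mem_union_left _ ha, hlt a (hA ha) y h⟩
        omega
    · intro h
      refine ⟨Or.inl h, ?_⟩
      rw [← hAc]
      unfold below
      apply card_lt_card
      rw [ssubset_iff_of_subset (by
        intro b hb
        rw [mem_filter, mem_union] at hb
        rcases hb.1 with h1 | h1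
        · exact h1
        · exact absurd hb.2 (not_lt.2 (hlt y (hA h) b h1).le))]
      exact ⟨y, h, fun hcon => lt_irrefl y (mem_filter.1 hcon).2⟩
  intro A hA B hB hAc hBc
  have h1 := hhom (A ∪ T) (union_subset (hA.trans hA₀) hT) (B ∪ T)
    (union_subset (hB.trans hA₀) hT)
    (by rw [card_union_of_disjoint (hdis A hA), hAc, hTc])
    (by rw [card_union_of_disjoint (hdis B hB), hBc, hTc])
  simp only at h1
  rw [key A hA hAc, key B hB hBc] at h1
  exact h1

end Pool.Agent.V11209.FC
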