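import Pool.Agent.V11209.FC.Pairs
import Pool.Agent.TH138.NF.Low

/-!
# Colourings of triples with one change
-/

set_option autoImplicit false

namespace Pool.Agent.V11209.FC

open Finset Pool.Agent.TH138.NF

variable {κ : Type}

/-- Many pairs of `A × B` of one type. -/
theorem count_types [Fintype κ] [DecidableEq κ] (A B : Finset ℕ) (K : ℕ) (hA : 0 < A.card)
    (hAB : A.card = B.card) (hK : 2 * Fintype.card κ * K ≤ A.card) (typ : ℕ → ℕ → Bool × κ) :
    (∃ b, ∃ x ∈ A, K ≤ (B.filter (fun y => typ x y = (true, b))).card) ∨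
      (∃ b, ∃ y ∈ B, K ≤ (A.filter (fun x => typ x y = (false, b))).card) := by
  by_contra hcon
  push Not at hcon
  obtain ⟨h1, h2⟩ := hcon
  have hκ : 0 < Fintype.card κ := Fintype.card_pos_iff.2 ⟨(typ 0 0).2⟩
  obtain ⟨a0, ha0⟩ := card_pos.1 hA
  obtain ⟨b0, hb0⟩ := card_pos.1 (hAB ▸ hA)
  have hne : (univ : Finset κ).Nonempty := ⟨(typ 0 0).2, mem_univ _⟩
  have e1 : ∑ x ∈ A, ∑ b : κ, (B.filter (fun y => typ x y = (true, b))).card <
      A.card * (Fintype.card κ * K) := by
    rw [← smul_eq_mul A.card, ← sum_const]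
    apply sum_lt_sum_of_nonempty ⟨a0, ha0⟩
    intro x hx
    have : ∑ b : κ, (B.filter (fun y => typ x y = (true, b))).card < ∑ _b : κ, K :=
      sum_lt_sum_of_nonempty hne (fun b _ => h1 b x hx)
    rwa [sum_const, card_univ, smul_eq_mul] at this
  have e2 : ∑ y ∈ B, ∑ b : κ, (A.filter (fun x => typ x y = (false, b))).card <
      B.card * (Fintype.card κ * K) := by
    rw [← smul_eq_mul B.card, ← sum_const]
    apply sum_lt_sum_of_nonempty ⟨b0, hb0⟩
    intro y hy
    have : ∑ b : κ, (A.filter (fun x => typ x y = (false, b))).card < ∑ _b : κ, K :=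
      sum_lt_sum_of_nonempty hne (fun b _ => h2 b y hy)
    rwa [sum_const, card_univ, smul_eq_mul] at this
  have e3 : ∀ x, B.card = ∑ b : κ, (B.filter (fun y => typ x y = (true, b))).card +
      ∑ b : κ, (B.filter (fun y => typ x y = (false, b))).card := by
    intro x
    have h3 : B.card = ∑ p : Bool × κ, (B.filter (fun y => typ x y = p)).card :=
      card_eq_sum_card_fiberwise (fun y _ => mem_univ (typ x y))
    rw [h3, Fintype.sum_prod_type]
    simp only [Fintype.sum_bool]
  have e4 : A.card * B.card = ∑ x ∈ A, ∑ b : κ, (B.filter (fun y => typ x y = (true, b))).card +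
      ∑ x ∈ A, ∑ b : κ, (B.filter (fun y => typ x y = (false, b))).card := by
    rw [← sum_add_distrib, ← smul_eq_mul, ← sum_const]
    exact sum_congr rfl (fun x _ => e3 x)
  have e5 : ∑ x ∈ A, ∑ b : κ, (B.filter (fun y => typ x y = (false, b))).card =
      ∑ y ∈ B, ∑ b : κ, (A.filter (fun x => typ x y = (false, b))).card := by
    rw [sum_comm, sum_comm (s := B)]
    refine sum_congr rfl (fun b _ => ?_)
    simp only [card_filter]
    rw [sum_comm]
  rw [e5] at e4
  have e6 : A.card * B.card < A.card * (Fintype.card κ * K) + B.card * (Fintype.card κ * K) := by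
    omega
  rw [← hAB, ← Nat.mul_add] at e6
  have e7 := Nat.lt_of_mul_lt_mul_left e6
  have e8 : 2 * Fintype.card κ * K = Fintype.card κ * K + Fintype.card κ * K := by ring
  omega

/-- Splitting a set in two halves. -/
theorem halves (S : Finset ℕ) (m : ℕ) (h : 2 * m ≤ S.card) : ∃ A ⊆ S, ∃ B ⊆ S, A.card = m ∧
    B.card = m ∧ ∀ x ∈ A, ∀ y ∈ B, x < y := by
  obtain ⟨x, hx, hxm⟩ := enum S
  have hinj : Set.InjOn x (range S.card : Set ℕ) := by
    intro i hi j hj hij
    rw [coe_range, Set.mem_Iio] at hi hj
    rcases lt_trichotomy i j with h | h | h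
    · exact absurd hij (hxm i j h hj).ne
    · exact h
    · exact absurd hij (hxm j i h hi).ne'
  refine ⟨(range m).image x, ?_, (range m).image (fun i => x (m + i)), ?_, ?_, ?_, ?_⟩
  · intro y hy
    obtain ⟨i, hi, rfl⟩ := mem_image.1 hy
    exact hx i (by have := mem_range.1 hi; omega)
  · intro y hy
    obtain ⟨i, hi, rfl⟩ := mem_image.1 hy
    exact hx _ (by have := mem_range.1 hi; omega)
  · rw [card_image_of_injOn, card_range]
    exact hinj.mono (by
      rw [coe_range, coe_range]
      intro i hi
      rw [Set.mem_Iio] at hi ⊢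
      omega)
  · rw [card_image_of_injOn, card_range]
    intro i hi j hj hij
    rw [coe_range, Set.mem_Iio] at hi hj
    have := hinj (show m + i ∈ (range S.card : Set ℕ) by
      rw [coe_range, Set.mem_Iio]; omega) (show m + j ∈ (range S.card : Set ℕ) by
      rw [coe_range, Set.mem_Iio]; omega) hij
    omega
  · intro u hu v hv
    obtain ⟨i, hi, rfl⟩ := mem_image.1 hu
    obtain ⟨j, hj, rfl⟩ := mem_image.1 hv
    have h1 := mem_range.1 hi
    have h2 := mem_range.1 hj
    exact hxm i (m + j) (by omega) (by omega)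

theorem sum_dec {T : Type} [Fintype T] [DecidableEq T] (m : T → ℕ) (τ : T) (h : m τ ≠ 0) :
    ∑ σ, m σ = ∑ σ, (Function.update m τ (m τ - 1)) σ + 1 := by
  rw [← add_sum_erase univ m (mem_univ τ),
    ← add_sum_erase univ (Function.update m τ (m τ - 1)) (mem_univ τ), Function.update_self]
  have : ∑ x ∈ univ.erase τ, Function.update m τ (m τ - 1) x = ∑ x ∈ univ.erase τ, m x :=
    sum_congr rfl (fun x hx => Function.update_of_ne (ne_of_mem_erase hx) _ _)
  rw [this]
  omega

/-- The recursion, the moving vertex is the last one. -/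
theorem triples_last_aux [Fintype κ] [DecidableEq κ] (V : Finset ℕ) (c : ℕ → ℕ → ℕ → κ)
    (hc : ∀ x ∈ V, ∀ y ∈ V, x < y → ∃ (T : ℕ) (a b : κ),
      (∀ z ∈ V, y < z → z < T → c x y z = a) ∧ (∀ z ∈ V, y < z → T ≤ z → c x y z = b)) :
    ∀ (M : ℕ) (m : Bool × κ → ℕ), ∑ τ, m τ = M → ∀ S ⊆ V, (4 * Fintype.card κ) ^ M ≤ S.card →
      ∃ τ : Bool × κ, ∃ H ⊆ S, H.card = m τ ∧
        (∀ x ∈ H, ∀ y ∈ H, ∀ z ∈ H, x < y → y < z → c x y z = τ.2) ∧
        (τ.1 = false → ∀ x ∈ H, ∀ y ∈ H, x < y → ∀ z ∈ V, (∀ s ∈ S, s < z) → c x y z = τ.2) := by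
  intro M
  induction M with
  | zero =>
    intro m hm S hS hSc
    refine ⟨(true, c 0 0 0), ∅, empty_subset _, ?_, by simp, by simp⟩
    have := sum_eq_zero_iff.1 hm (true, c 0 0 0) (mem_univ _)
    rw [this]
    rfl
  | succ M ih =>
    intro m hm S hS hSc
    by_cases h0 : ∃ τ, m τ = 0
    · obtain ⟨τ, hτ⟩ := h0
      exact ⟨τ, ∅, empty_subset _, by rw [hτ]; rfl, by simp, by simp⟩
    push Not at h0
    have hκ : 0 < Fintype.card κ := Fintype.card_pos_iff.2 ⟨c 0 0 0⟩
    set K := (4 * Fintype.card κ) ^ M with hK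
    have hKpos : 0 < K := by positivity
    obtain ⟨A, hAS, B, hBS, hAc, hBc, hAB⟩ := halves S (2 * Fintype.card κ * K) (by
      refine le_trans (le_of_eq ?_) hSc
      rw [pow_succ, ← hK]
      ring)
    have hApos : 0 < A.card := by
      rw [hAc]
      positivity
    -- the types of the pairs
    have hex : ∀ x y, ∃ τ : Bool × κ, x ∈ A → y ∈ B →
        (τ.1 = true → ∀ z ∈ B, y < z → c x y z = τ.2) ∧
        (τ.1 = false → ∀ z ∈ V, (∀ s ∈ S, s < z) → c x y z = τ.2) := by
      intro x y
      by_cases hxy : x ∈ A ∧ y ∈ B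
      · obtain ⟨hx, hy⟩ := hxy
        obtain ⟨T, a, b, h1, h2⟩ := hc x (hS (hAS hx)) y (hS (hBS hy)) (hAB x hx y hy)
        by_cases hT : ∀ z ∈ B, z < T
        · refine ⟨(true, a), fun _ _ => ⟨fun _ z hz hyz => h1 z (hS (hBS hz)) hyz (hT z hz), ?_⟩⟩
          intro h
          simp at h
        · push Not at hT
          obtain ⟨z0, hz0, hTz⟩ := hT
          refine ⟨(false, b), fun _ _ => ⟨fun h => by simp at h, fun _ z hz hs => ?_⟩⟩
          have h3 := hs z0 (hBS hz0)
          exact h2 z hz (hs y (hBS hy)) (by omega)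
      · exact ⟨(true, c 0 0 0), fun h1 h2 => absurd ⟨h1, h2⟩ hxy⟩
    choose typ htyp using hex
    rcases count_types A B K hApos (hAc.trans hBc.symm) (le_of_eq hAc.symm) typ with
      ⟨b, x, hx, hxK⟩ | ⟨b, y, hy, hyK⟩
    · set S' := B.filter (fun y => typ x y = (true, b)) with hS'
      have hS'B : S' ⊆ B := filter_subset _ _
      obtain ⟨τ, H, hH, hHc, hh1, hh2⟩ := ih (Function.update m (true, b) (m (true, b) - 1))
        (by have := sum_dec m (true, b) (h0 _); omega) S' ((hS'B.trans hBS).trans hS) hxK
      have hxH : x ∉ H := fun h => (hAB x hx x (hS'B (hH h))).ne rfl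
      by_cases hτ : τ = (true, b)
      · subst hτ
        refine ⟨(true, b), insert x H, ?_, ?_, ?_, ?_⟩
        · exact insert_subset_iff.2 ⟨hAS hx, (hH.trans hS'B).trans hBS⟩
        · rw [card_insert_of_notMem hxH, hHc, Function.update_self]
          have := h0 (true, b)
          omega
        · intro u hu v hv w hw huv hvw
          have hxlt : ∀ y ∈ H, x < y := fun y hy => hAB x hx y (hS'B (hH hy))
          have hv' : v ∈ H := by
            rcases mem_insert.1 hv with e | h
            · rcases mem_insert.1 hu with e' | h'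
              · omega
              · have := hxlt u h'
                omega
            · exact h
          have hw' : w ∈ H := by
            rcases mem_insert.1 hw with e | h
            · have := hxlt v hv'
              omega
            · exact h
          rcases mem_insert.1 hu with e | h
          · rw [e]
            have h3 := mem_filter.1 (hH hv')
            have h4 := (htyp x v hx h3.1).1 (by rw [h3.2]) w (hS'B (hH hw')) hvw
            rw [h4, h3.2]
          · exact hh1 u h v hv' w hw' huv hvw
        · intro h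
          simp at h
      · refine ⟨τ, H, (hH.trans hS'B).trans hBS, ?_, hh1, ?_⟩
        · rw [hHc, Function.update_of_ne hτ]
        · intro h x hx y hy hxy z hz hs
          exact hh2 h x hx y hy hxy z hz (fun s hs' => hs s (hBS (hS'B hs')))
    · set S' := A.filter (fun x => typ x y = (false, b)) with hS'
      have hS'A : S' ⊆ A := filter_subset _ _
      obtain ⟨τ, H, hH, hHc, hh1, hh2⟩ := ih (Function.update m (false, b) (m (false, b) - 1))
        (by have := sum_dec m (false, b) (h0 _); omega) S' ((hS'A.trans hAS).trans hS) hyK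
      have hyH : y ∉ H := fun h => (hAB y (hS'A (hH h)) y hy).ne rfl
      have hltS' : ∀ s ∈ S', s < y := fun s hs => hAB s (hS'A hs) y hy
      by_cases hτ : τ = (false, b)
      · subst hτ
        have hlt : ∀ s ∈ H, s < y := fun s hs => hltS' s (hH hs)
        refine ⟨(false, b), insert y H, ?_, ?_, ?_, ?_⟩
        · exact insert_subset_iff.2 ⟨hBS hy, (hH.trans hS'A).trans hAS⟩
        · rw [card_insert_of_notMem hyH, hHc, Function.update_self]
          have := h0 (false, b)
          omega
        · intro u hu v hv w hw huv hvw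
          have hv' : v ∈ H := by
            rcases mem_insert.1 hv with e | h
            · rcases mem_insert.1 hw with e' | h'
              · omega
              · have := hlt w h'
                omega
            · exact h
          have hu' : u ∈ H := by
            rcases mem_insert.1 hu with e | h
            · have := hlt v hv'
              omega
            · exact h
          rcases mem_insert.1 hw with e | h
          · rw [e]
            exact hh2 rfl u hu' v hv' huv y (hS (hBS hy)) hltS'
          · exact hh1 u hu' v hv' w h huv hvw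
        · intro _ u hu v hv huv z hz hs
          have hu' : u ∈ H := by
            rcases mem_insert.1 hu with e | h
            · rcases mem_insert.1 hv with e' | h'
              · omega
              · have := hlt v h'
                omega
            · exact h
          rcases mem_insert.1 hv with e | h
          · rw [e]
            have h3 := mem_filter.1 (hH hu')
            have h4 := (htyp u y h3.1 hy).2 (by rw [h3.2]) z hz hs
            rw [h4, h3.2]
          · exact hh2 rfl u hu' v h huv z hz (fun s hs' => hs s (hAS (hS'A hs')))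
      · refine ⟨τ, H, (hH.trans hS'A).trans hAS, ?_, hh1, ?_⟩
        · rw [hHc, Function.update_of_ne hτ]
        · intro h x hx y hy hxy z hz hs
          exact hh2 h x hx y hy hxy z hz (fun s hs' => hs s (hAS (hS'A hs')))

/-- The recursion, the moving vertex is the middle one. -/
theorem triples_mid_aux [Fintype κ] [DecidableEq κ] (V : Finset ℕ) (c : ℕ → ℕ → ℕ → κ)
    (hc : ∀ x ∈ V, ∀ z ∈ V, x < z → ∃ (T : ℕ) (a b : κ),
      (∀ y ∈ V, x < y → y < z → y < T → c x y z = a) ∧
      (∀ y ∈ V, x < y → y < z → T ≤ y → c x y z = b)) :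
    ∀ (M : ℕ) (m : Bool × κ → ℕ), ∑ τ, m τ = M → ∀ S ⊆ V, (4 * Fintype.card κ) ^ M ≤ S.card →
      ∃ τ : Bool × κ, ∃ H ⊆ S, H.card = m τ ∧
        (∀ x ∈ H, ∀ y ∈ H, ∀ z ∈ H, x < y → y < z → c x y z = τ.2) := by
  intro M
  induction M with
  | zero =>
    intro m hm S hS hSc
    refine ⟨(true, c 0 0 0), ∅, empty_subset _, ?_, by simp⟩
    have := sum_eq_zero_iff.1 hm (true, c 0 0 0) (mem_univ _)
    rw [this]
    rfl
  | succ M ih =>
    intro m hm S hS hSc
    by_cases h0 : ∃ τ, m τ = 0
    · obtain ⟨τ, hτ⟩ := h0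
      exact ⟨τ, ∅, empty_subset _, by rw [hτ]; rfl, by simp⟩
    push Not at h0
    have hκ : 0 < Fintype.card κ := Fintype.card_pos_iff.2 ⟨c 0 0 0⟩
    set K := (4 * Fintype.card κ) ^ M with hK
    have hKpos : 0 < K := by positivity
    obtain ⟨A, hAS, B, hBS, hAc, hBc, hAB⟩ := halves S (2 * Fintype.card κ * K) (by
      refine le_trans (le_of_eq ?_) hSc
      rw [pow_succ, ← hK]
      ring)
    have hApos : 0 < A.card := by
      rw [hAc]
      positivity
    have hex : ∀ x z, ∃ τ : Bool × κ, x ∈ A → z ∈ B →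
        (τ.1 = true → ∀ y ∈ B, y < z → c x y z = τ.2) ∧
        (τ.1 = false → ∀ y ∈ A, x < y → c x y z = τ.2) := by
      intro x z
      by_cases hxz : x ∈ A ∧ z ∈ B
      · obtain ⟨hx, hz⟩ := hxz
        obtain ⟨T, a, b, h1, h2⟩ := hc x (hS (hAS hx)) z (hS (hBS hz)) (hAB x hx z hz)
        by_cases hT : ∀ y ∈ A, y < T
        · refine ⟨(false, a), fun _ _ => ⟨fun h => by simp at h, fun _ y hy hxy => ?_⟩⟩
          exact h1 y (hS (hAS hy)) hxy (hAB y hy z hz) (hT y hy)
        · push Not at hT
          obtain ⟨y0, hy0, hTy⟩ := hT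
          refine ⟨(true, b), fun _ _ => ⟨fun _ y hy hyz => ?_, fun h => by simp at h⟩⟩
          have h3 := hAB y0 hy0 y hy
          exact h2 y (hS (hBS hy)) (hAB x hx y hy) hyz (by omega)
      · exact ⟨(true, c 0 0 0), fun h1 h2 => absurd ⟨h1, h2⟩ hxz⟩
    choose typ htyp using hex
    rcases count_types A B K hApos (hAc.trans hBc.symm) (le_of_eq hAc.symm) typ with
      ⟨b, x, hx, hxK⟩ | ⟨b, y, hy, hyK⟩
    · set S' := B.filter (fun y => typ x y = (true, b)) with hS'
      have hS'B : S' ⊆ B := filter_subset _ _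
      obtain ⟨τ, H, hH, hHc, hh1⟩ := ih (Function.update m (true, b) (m (true, b) - 1))
        (by have := sum_dec m (true, b) (h0 _); omega) S' ((hS'B.trans hBS).trans hS) hxK
      have hxH : x ∉ H := fun h => (hAB x hx x (hS'B (hH h))).ne rfl
      by_cases hτ : τ = (true, b)
      · subst hτ
        refine ⟨(true, b), insert x H, ?_, ?_, ?_⟩
        · exact insert_subset_iff.2 ⟨hAS hx, (hH.trans hS'B).trans hBS⟩
        · rw [card_insert_of_notMem hxH, hHc, Function.update_self]
          have := h0 (true, b)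
          omega
        · intro u hu v hv w hw huv hvw
          have hxlt : ∀ y ∈ H, x < y := fun y hy => hAB x hx y (hS'B (hH hy))
          have hv' : v ∈ H := by
            rcases mem_insert.1 hv with e | h
            · rcases mem_insert.1 hu with e' | h'
              · omega
              · have := hxlt u h'
                omega
            · exact h
          have hw' : w ∈ H := by
            rcases mem_insert.1 hw with e | h
            · have := hxlt v hv'
              omega
            · exact h
          rcases mem_insert.1 hu with e | h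
          · rw [e]
            have h3 := mem_filter.1 (hH hw')
            have h4 := (htyp x w hx h3.1).1 (by rw [h3.2]) v (hS'B (hH hv')) hvw
            rw [h4, h3.2]
          · exact hh1 u h v hv' w hw' huv hvw
      · exact ⟨τ, H, (hH.trans hS'B).trans hBS, by rw [hHc, Function.update_of_ne hτ], hh1⟩
    · set S' := A.filter (fun x => typ x y = (false, b)) with hS'
      have hS'A : S' ⊆ A := filter_subset _ _
      obtain ⟨τ, H, hH, hHc, hh1⟩ := ih (Function.update m (false, b) (m (false, b) - 1))
        (by have := sum_dec m (false, b) (h0 _); omega) S' ((hS'A.trans hAS).trans hS) hyK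
      have hyH : y ∉ H := fun h => (hAB y (hS'A (hH h)) y hy).ne rfl
      have hltS' : ∀ s ∈ S', s < y := fun s hs => hAB s (hS'A hs) y hy
      by_cases hτ : τ = (false, b)
      · subst hτ
        have hlt : ∀ s ∈ H, s < y := fun s hs => hltS' s (hH hs)
        refine ⟨(false, b), insert y H, ?_, ?_, ?_⟩
        · exact insert_subset_iff.2 ⟨hBS hy, (hH.trans hS'A).trans hAS⟩
        · rw [card_insert_of_notMem hyH, hHc, Function.update_self]
          have := h0 (false, b)
          omega
        · intro u hu v hv w hw huv hvw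
          have hv' : v ∈ H := by
            rcases mem_insert.1 hv with e | h
            · rcases mem_insert.1 hw with e' | h'
              · omega
              · have := hlt w h'
                omega
            · exact h
          have hu' : u ∈ H := by
            rcases mem_insert.1 hu with e | h
            · have := hlt v hv'
              omega
            · exact h
          rcases mem_insert.1 hw with e | h
          · rw [e]
            have h3 := mem_filter.1 (hH hu')
            have h4 := (htyp u y h3.1 hy).2 (by rw [h3.2]) v (hS'A (hH hv')) huv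
            rw [h4, h3.2]
          · exact hh1 u hu' v hv' w h huv hvw
      · exact ⟨τ, H, (hH.trans hS'A).trans hAS, by rw [hHc, Function.update_of_ne hτ], hh1⟩

theorem triple_eq {A : Finset ℕ} (h : A.card = 3) : ∃ x y z, x < y ∧ y < z ∧ A = {x, y, z} := by
  set e := A.orderEmbOfFin h with he
  have hem : StrictMono (e : Fin 3 → ℕ) := e.strictMono
  refine ⟨e 0, e 1, e 2, hem (by decide), hem (by decide), ?_⟩
  have himg : univ.image (e : Fin 3 → ℕ) = A := by
    apply eq_of_subset_of_card_le
    · intro x hx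
      obtain ⟨i, -, rfl⟩ := mem_image.1 hx
      exact orderEmbOfFin_mem _ _ _
    · rw [card_image_of_injective _ hem.injective, card_univ, Fintype.card_fin, h]
  rw [← himg]
  ext x
  simp only [mem_image, mem_univ, true_and, mem_insert, mem_singleton]
  constructor
  · rintro ⟨i, rfl⟩
    fin_cases i <;> simp
  · rintro (rfl | rfl | rfl)
    · exact ⟨0, rfl⟩
    · exact ⟨1, rfl⟩
    · exact ⟨2, rfl⟩

theorem hom_of_triples {c : Finset ℕ → κ} {H : Finset ℕ} (b : κ)
    (h : ∀ x ∈ H, ∀ y ∈ H, ∀ z ∈ H, x < y → y < z → c {x, y, z} = b) : Homogeneous 3 c H := by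
  have key : ∀ A ⊆ H, A.card = 3 → c A = b := by
    intro A hA hAc
    obtain ⟨x, y, z, hxy, hyz, rfl⟩ := triple_eq hAc
    exact h x (hA (by simp)) y (hA (by simp)) z (hA (by simp)) hxy hyz
  intro A hA A' hA' hAc hAc'
  rw [key A hA hAc, key A' hA' hAc']

/-- a monotone function with values `0` and `1` -/
theorem threshold {g : ℕ → ℕ} (hg : Monotone g) (h1 : ∀ x, g x ≤ 1) (B : ℕ) :
    ∃ T, (∀ x < T, g x = 0) ∧ ∀ x < B, T ≤ x → g x = 1 := by
  by_cases h : ∃ x, g x = 1
  · refine ⟨Nat.find h, fun x hx => ?_, fun x _ hx => ?_⟩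
    · have := Nat.find_min h hx
      have := h1 x
      omega
    · have h2 := Nat.find_spec h
      have h3 := hg hx
      have := h1 x
      omega
  · push Not at h
    refine ⟨B, fun x _ => ?_, fun x hx hx' => absurd hx (by omega)⟩
    have := h x
    have := h1 x
    omega

theorem sum_const_types [Fintype κ] (n : ℕ) :
    ∑ _τ : Bool × κ, n = 2 * Fintype.card κ * n := by
  rw [sum_const, card_univ, Fintype.card_prod, Fintype.card_bool, smul_eq_mul]

/-- **Triples**, one change in the last vertex. -/
theorem triples_last [Fintype κ] {n : ℕ} (V : Finset ℕ) (c : Finset ℕ → κ)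
    (hV : (4 * Fintype.card κ) ^ (2 * Fintype.card κ * n) ≤ V.card) (hc : FewChanges c 3 2 1 V) :
    ∃ H ⊆ V, H.card = n ∧ Homogeneous 3 c H := by
  classical
  have hB : ∀ v ∈ V, v < V.sup id + 1 := fun v hv => Nat.lt_succ_of_le (le_sup (f := id) hv)
  obtain ⟨τ, H, hH, hHc, h1, -⟩ := triples_last_aux V (fun x y z => c {x, y, z}) (by
    intro x hx y hy hxy
    obtain ⟨g, k, g1, g2, g3⟩ := hc {x, y} (insert_subset_iff.2 ⟨hx, singleton_subset_iff.2 hy⟩)
      (by rw [card_pair hxy.ne])
    obtain ⟨T, t1, t2⟩ := threshold g1 g2 (V.sup id + 1)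
    have key : ∀ z ∈ V, y < z → c {x, y, z} = k (g z) := by
      intro z hz hyz
      rw [← g3 z hz]
      · congr 1
        ext w
        simp only [mem_insert, mem_singleton]
        tauto
      · simp only [mem_insert, mem_singleton, not_or]
        exact ⟨(hxy.trans hyz).ne', hyz.ne'⟩
      · unfold below
        rw [filter_insert, if_pos (hxy.trans hyz), filter_singleton, if_pos hyz, card_pair hxy.ne]
    refine ⟨T, k 0, k 1, fun z hz hyz hzT => ?_, fun z hz hyz hzT => ?_⟩
    · rw [key z hz hyz, t1 z hzT]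
    · rw [key z hz hyz, t2 z (hB z hz) hzT]) (2 * Fintype.card κ * n) (fun _ => n)
      (sum_const_types n) V Subset.rfl hV
  exact ⟨H, hH, hHc, hom_of_triples τ.2 h1⟩

/-- **Triples**, one change in the middle vertex. -/
theorem triples_mid [Fintype κ] {n : ℕ} (V : Finset ℕ) (c : Finset ℕ → κ)
    (hV : (4 * Fintype.card κ) ^ (2 * Fintype.card κ * n) ≤ V.card) (hc : FewChanges c 3 1 1 V) :
    ∃ H ⊆ V, H.card = n ∧ Homogeneous 3 c H := by
  classical
  have hB : ∀ v ∈ V, v < V.sup id + 1 := fun v hv => Nat.lt_succ_of_le (le_sup (f := id) hv)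
  obtain ⟨τ, H, hH, hHc, h1⟩ := triples_mid_aux V (fun x y z => c {x, y, z}) (by
    intro x hx z hz hxz
    obtain ⟨g, k, g1, g2, g3⟩ := hc {x, z} (insert_subset_iff.2 ⟨hx, singleton_subset_iff.2 hz⟩)
      (by rw [card_pair hxz.ne])
    obtain ⟨T, t1, t2⟩ := threshold g1 g2 (V.sup id + 1)
    have key : ∀ y ∈ V, x < y → y < z → c {x, y, z} = k (g y) := by
      intro y hy hxy hyz
      rw [← g3 y hy]
      · congr 1
        ext w
        simp only [mem_insert, mem_singleton]
        tauto
      · simp only [mem_insert, mem_singleton, not_or]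
        exact ⟨hxy.ne', hyz.ne⟩
      · unfold below
        rw [filter_insert, if_pos hxy, filter_singleton, if_neg (by omega)]
        rfl
    refine ⟨T, k 0, k 1, fun y hy hxy hyz hzT => ?_, fun y hy hxy hyz hzT => ?_⟩
    · rw [key y hy hxy hyz, t1 y hzT]
    · rw [key y hy hxy hyz, t2 y (hB y hy) hzT]) (2 * Fintype.card κ * n) (fun _ => n)
      (sum_const_types n) V Subset.rfl hV
  exact ⟨H, hH, hHc, hom_of_triples τ.2 h1⟩

/-- Reduction to the reversed colouring. -/
theorem by_rev {n r j t : ℕ} (V : Finset ℕ) (c : Finset ℕ → κ) (hj : j < r)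
    (hc : FewChanges c r j t V)
    (h : ∀ (V' : Finset ℕ) (c' : Finset ℕ → κ), V'.card = V.card →
      FewChanges c' r (r - 1 - j) t V' → ∃ H ⊆ V', H.card = n ∧ Homogeneous r c' H) :
    ∃ H ⊆ V, H.card = n ∧ Homogeneous r c H := by
  have hB : ∀ v ∈ V, v ≤ V.sup id := fun v hv => le_sup (f := id) hv
  obtain ⟨H, hH, hHc, hHh⟩ := h (V.image (fun x => V.sup id - x)) (revC (V.sup id) c)
    (card_image_of_injOn (rev_injOn hB)) (hc.rev hj hB)
  have hHB : ∀ v ∈ H, v ≤ V.sup id := by
    intro v hv
    obtain ⟨u, -, rfl⟩ := mem_image.1 (hH hv)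
    exact Nat.sub_le _ _
  refine ⟨H.image (fun x => V.sup id - x), ?_, ?_, hom_rev hHB hHh⟩
  · intro x hx
    obtain ⟨a, ha, rfl⟩ := mem_image.1 hx
    obtain ⟨v, hv, rfl⟩ := mem_image.1 (hH ha)
    rw [rev_rev (hB v hv)]
    exact hv
  · rw [card_image_of_injOn (rev_injOn hHB), hHc]

/-- **Triples**, one change. -/
theorem triples_all [Fintype κ] {n : ℕ} (V : Finset ℕ) (c : Finset ℕ → κ) (j : ℕ) (hj : j < 3)
    (hV : (4 * Fintype.card κ) ^ (2 * Fintype.card κ * n) ≤ V.card) (hc : FewChanges c 3 j 1 V) :
    ∃ H ⊆ V, H.card = n ∧ Homogeneous 3 c H := by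
  have h3 : j = 0 ∨ j = 1 ∨ j = 2 := by omega
  rcases h3 with rfl | rfl | rfl
  · exact by_rev V c hj hc (fun V' c' hV' hc' => triples_last V' c' (hV'.symm ▸ hV) hc')
  · exact triples_mid V c hV hc
  · exact triples_last V c hV hc

end Pool.Agent.V11209.FC
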