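import Pool.Agent.V11209.FC.OnlineFin
import Pool.Agent.V11209.FC.Triples

/-!
# Ramsey's theorem for pairs, any number of colours
-/

set_option autoImplicit false

namespace Pool.Agent.V11209.FC

open Finset Pool.Agent.TH138.NF

variable {κ : Type}

theorem pair_ramsey_aux [Fintype κ] [DecidableEq κ] (c : ℕ → ℕ → κ) :
    ∀ (M : ℕ) (m : κ → ℕ), ∑ a, m a = M → ∀ S : Finset ℕ, (2 * Fintype.card κ) ^ M ≤ S.card →
      ∃ a : κ, ∃ H ⊆ S, H.card = m a ∧ ∀ x ∈ H, ∀ y ∈ H, x < y → c x y = a := by
  intro M
  induction M with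
  | zero =>
    intro m hm S _
    refine ⟨c 0 0, ∅, empty_subset _, ?_, by simp⟩
    have := sum_eq_zero_iff.1 hm (c 0 0) (mem_univ _)
    rw [this]
    rfl
  | succ M ih =>
    intro m hm S hSc
    by_cases h0 : ∃ a, m a = 0
    · obtain ⟨a, ha⟩ := h0
      exact ⟨a, ∅, empty_subset _, by rw [ha]; rfl, by simp⟩
    push Not at h0
    have hκ : 0 < Fintype.card κ := Fintype.card_pos_iff.2 ⟨c 0 0⟩
    set K := (2 * Fintype.card κ) ^ M with hK
    have hKpos : 0 < K := by positivity
    have hqK : 0 < Fintype.card κ * K := by positivity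
    have hSK : 2 * (Fintype.card κ * K) ≤ S.card := by
      refine le_trans (le_of_eq ?_) hSc
      rw [pow_succ, ← hK]
      ring
    have hne : S.Nonempty := by
      rw [← card_pos]
      omega
    obtain ⟨v, hv, hvmin⟩ := exists_min_image S id hne
    simp only [id] at hvmin
    have h1 : (S.erase v).card + 1 = S.card := card_erase_add_one hv
    obtain ⟨b, hb⟩ := pigeon (S.erase v) (fun y => c v y) K (by
      rw [← card_pos]
      omega) (by omega)
    set S' := (S.erase v).filter (fun y => c v y = b) with hS'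
    obtain ⟨a, H, hH, hHc, hh⟩ := ih (Function.update m b (m b - 1))
      (by have := sum_dec m b (h0 _); omega) S' hb
    have hHS : H ⊆ S := fun x hx => (mem_erase.1 (mem_of_mem_filter x (hH hx))).2
    by_cases hab : a = b
    · subst hab
      have hvlt : ∀ y ∈ H, v < y := by
        intro y hy
        have h2 := mem_erase.1 (mem_of_mem_filter y (hH hy))
        exact lt_of_le_of_ne (hvmin y h2.2) h2.1.symm
      have hvH : v ∉ H := fun h => (hvlt v h).ne rfl
      refine ⟨a, insert v H, insert_subset_iff.2 ⟨hv, hHS⟩, ?_, ?_⟩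
      · rw [card_insert_of_notMem hvH, hHc, Function.update_self]
        have := h0 a
        omega
      · intro x hx y hy hxy
        rcases mem_insert.1 hx with e | hx'
        · rcases mem_insert.1 hy with e' | hy'
          · omega
          · rw [e]
            exact (mem_filter.1 (hH hy')).2
        · rcases mem_insert.1 hy with e' | hy'
          · have := hvlt x hx'
            omega
          · exact hh x hx' y hy' hxy
    · exact ⟨a, H, hHS, by rw [hHc, Function.update_of_ne hab], hh⟩

/-- **Ramsey's theorem for pairs.** -/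
theorem pair_ramsey [Fintype κ] (n : ℕ) (V : Finset ℕ) (c : Finset ℕ → κ)
    (hV : (2 * Fintype.card κ) ^ (Fintype.card κ * n) ≤ V.card) :
    ∃ H ⊆ V, H.card = n ∧ Homogeneous 2 c H := by
  classical
  obtain ⟨a, H, hH, hHc, hh⟩ := pair_ramsey_aux (fun x y => c {x, y}) (Fintype.card κ * n)
    (fun _ => n) (by rw [sum_const, card_univ, smul_eq_mul]) V hV
  refine ⟨H, hH, hHc, ?_⟩
  have key : ∀ A ⊆ H, A.card = 2 → c A = a := by
    intro A hA hAc
    obtain ⟨x, y, hxy, rfl⟩ := pair_eq hAc
    exact hh x (hA (by simp)) y (hA (by simp)) hxy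
  intro A hA A' hA' hAc hAc'
  rw [key A hA hAc, key A' hA' hAc']

end Pool.Agent.V11209.FC
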