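import Pool.Agent.V11209.FC.Defs

/-!
# Colourings of pairs with few changes
-/

set_option autoImplicit false

namespace Pool.Agent.V11209.FC

open Finset Pool.Agent.TH138.NF

/-- Intervals: either `n` of them have a common point, or many are disjoint. -/
theorem intervals (T : ℕ → ℕ) (n : ℕ) : ∀ (m : ℕ) (W : Finset ℕ), W.card = m →
    (∀ x ∈ W, x < T x) →
    (∀ H ⊆ W, H.card = n + 1 → ∃ x ∈ H, ∃ y ∈ H, x < y ∧ T x ≤ y) →
    ∃ D ⊆ W, W.card ≤ n * D.card ∧ ∀ x ∈ D, ∀ y ∈ D, x < y → T x ≤ y := by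
  intro m
  induction m using Nat.strong_induction_on with
  | _ m ih =>
    intro W hm hT hH
    rcases W.eq_empty_or_nonempty with rfl | hne
    · exact ⟨∅, Subset.rfl, by simp, by simp⟩
    · obtain ⟨x1, hx1, hmin⟩ := exists_min_image W T hne
      set R := W.filter (fun x => x < T x1) with hR
      have hxR : x1 ∈ R := mem_filter.2 ⟨hx1, hT x1 hx1⟩
      have hRc : R.card ≤ n := by
        by_contra hcon
        push Not at hcon
        obtain ⟨H, hHR, hHc⟩ := exists_subset_card_eq (show n + 1 ≤ R.card by omega)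
        obtain ⟨x, hx, y, hy, -, h2⟩ := hH H (hHR.trans (filter_subset _ _)) hHc
        have h3 := (mem_filter.1 (hHR hy)).2
        have h4 := hmin x (mem_of_mem_filter x (hHR hx))
        omega
      set W' := W.filter (fun x => ¬ x < T x1) with hW'
      have hsum : R.card + W'.card = W.card := card_filter_add_card_filter_not _
      have hRpos : 0 < R.card := card_pos.2 ⟨x1, hxR⟩
      obtain ⟨D, hD, hDc, hDd⟩ := ih W'.card (by omega) W' rfl
        (fun x hx => hT x (mem_of_mem_filter x hx))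
        (fun H hHW hHc => hH H (hHW.trans (filter_subset _ _)) hHc)
      have hx1D : x1 ∉ D := fun h => (mem_filter.1 (hD h)).2 (hT x1 hx1)
      refine ⟨insert x1 D, insert_subset_iff.2 ⟨hx1, hD.trans (filter_subset _ _)⟩, ?_, ?_⟩
      · rw [card_insert_of_notMem hx1D, Nat.mul_add, mul_one]
        omega
      · intro x hx y hy hxy
        rcases mem_insert.1 hx with e | hx'
        · rcases mem_insert.1 hy with e' | hy'
          · rw [e, e'] at hxy
            exact absurd hxy (lt_irrefl _)
          · rw [e]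
            exact not_lt.1 (mem_filter.1 (hD hy')).2
        · rcases mem_insert.1 hy with e' | hy'
          · have h5 := not_lt.1 (mem_filter.1 (hD hx')).2
            have h6 := hT x1 hx1
            omega
          · exact hDd x hx' y hy' hxy

variable {κ : Type}

/-- pigeonhole -/
theorem pigeon [Fintype κ] [DecidableEq κ] (V : Finset ℕ) (f : ℕ → κ) (m : ℕ) (hV : V.Nonempty)
    (h : Fintype.card κ * m ≤ V.card) : ∃ b, m ≤ (V.filter (fun x => f x = b)).card := by
  by_contra hcon
  push Not at hcon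
  obtain ⟨v, hv⟩ := hV
  have hne : (univ : Finset κ).Nonempty := ⟨f v, mem_univ _⟩
  have h1 : V.card = ∑ b : κ, (V.filter (fun x => f x = b)).card :=
    card_eq_sum_card_fiberwise (fun x _ => mem_univ (f x))
  have h2 : ∑ b : κ, (V.filter (fun x => f x = b)).card < ∑ _b : κ, m :=
    sum_lt_sum_of_nonempty hne (fun b _ => hcon b)
  rw [sum_const, card_univ, smul_eq_mul] at h2
  omega

/-- Few changes in the second vertex. -/
theorem pairs [Fintype κ] (n : ℕ) (hn : 1 ≤ n) : ∀ (t : ℕ) (V : Finset ℕ) (ψ : ℕ → ℕ → κ),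
    (Fintype.card κ * n) ^ (t + 1) ≤ V.card →
    (∀ x ∈ V, ∃ (g : ℕ → ℕ) (h : ℕ → κ), Monotone g ∧ (∀ y, g y ≤ t) ∧
      ∀ y ∈ V, x < y → ψ x y = h (g y)) →
    ∃ H ⊆ V, H.card = n ∧ ∃ b, ∀ x ∈ H, ∀ y ∈ H, x < y → ψ x y = b := by
  classical
  intro t
  induction t with
  | zero =>
    intro V ψ hV hψ
    have hκ : 1 ≤ Fintype.card κ := Fintype.card_pos_iff.2 ⟨ψ 0 0⟩
    have hVn : V.Nonempty := by
      rw [← card_pos]
      refine lt_of_lt_of_le ?_ hV
      positivity
    have hex : ∀ x, ∃ a : κ, x ∈ V → ∀ y ∈ V, x < y → ψ x y = a := by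
      intro x
      by_cases hx : x ∈ V
      · obtain ⟨g, h, -, h2, h3⟩ := hψ x hx
        refine ⟨h 0, fun _ y hy hxy => ?_⟩
        rw [h3 y hy hxy, Nat.le_zero.1 (h2 y)]
      · exact ⟨ψ 0 0, fun h => absurd h hx⟩
    choose f hf using hex
    obtain ⟨b, hb⟩ := pigeon V f n hVn (by simpa using hV)
    obtain ⟨H, hH, hHc⟩ := exists_subset_card_eq hb
    refine ⟨H, hH.trans (filter_subset _ _), hHc, b, fun x hx y hy hxy => ?_⟩
    have hx' := mem_filter.1 (hH hx)
    rw [hf x hx'.1 y (mem_of_mem_filter y (hH hy)) hxy, hx'.2]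
  | succ t ih =>
    intro V ψ hV hψ
    have hκ : 1 ≤ Fintype.card κ := Fintype.card_pos_iff.2 ⟨ψ 0 0⟩
    have hVn : V.Nonempty := by
      rw [← card_pos]
      refine lt_of_lt_of_le ?_ hV
      positivity
    set B := V.sup id + 1 with hB
    have hVB : ∀ x ∈ V, x < B := fun x hx => Nat.lt_succ_of_le (le_sup (f := id) hx)
    -- the first interval of constancy
    have hex : ∀ x, ∃ (T : ℕ) (a : κ), x ∈ V → x < T ∧ (∀ y ∈ V, x < y → y < T → ψ x y = a) ∧
        ∃ (g : ℕ → ℕ) (h : ℕ → κ), Monotone g ∧ (∀ y, g y ≤ t) ∧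
          ∀ y ∈ V, T ≤ y → ψ x y = h (g y) := by
      intro x
      by_cases hx : x ∈ V
      · obtain ⟨g, h, h1, h2, h3⟩ := hψ x hx
        set m := g (x + 1) with hm
        by_cases hall : ∀ y ∈ V, x < y → g y = m
        · refine ⟨B, h m, fun _ => ⟨hVB x hx, fun y hy hxy _ => ?_, ?_⟩⟩
          · rw [h3 y hy hxy, hall y hy hxy]
          · exact ⟨fun _ => 0, fun _ => ψ 0 0, monotone_const, fun _ => Nat.zero_le _,
              fun y hy hBy => absurd (hVB y hy) (by omega)⟩
        · push Not at hall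
          obtain ⟨y0, hy0, hxy0, hg0⟩ := hall
          have hexT : ∃ z, m < g z := by
            refine ⟨y0, lt_of_le_of_ne (h1 (by omega)) (Ne.symm hg0)⟩
          refine ⟨Nat.find hexT, h m, fun _ => ⟨?_, fun y hy hxy hyT => ?_, ?_⟩⟩
          · by_contra hcon
            push Not at hcon
            have h5 := Nat.find_spec hexT
            have h6 : g (Nat.find hexT) ≤ g (x + 1) := h1 (by omega)
            omega
          · have h5 := Nat.find_min hexT hyT
            have h6 : m ≤ g y := h1 (by omega)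
            rw [h3 y hy hxy]
            congr 1
            omega
          · refine ⟨fun y => g y - (m + 1), fun i => h (i + (m + 1)), ?_, ?_, ?_⟩
            · intro y y' hyy
              exact Nat.sub_le_sub_right (h1 hyy) _
            · intro y
              have := h2 y
              show g y - (m + 1) ≤ t
              omega
            · intro y hy hTy
              have h5 : m < g y := (Nat.find_spec hexT).trans_le (h1 hTy)
              have h6 : x < y := by
                by_contra hcon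
                push Not at hcon
                have h7 : g y ≤ g (x + 1) := h1 (by omega)
                omega
              rw [h3 y hy h6]
              show h (g y) = h (g y - (m + 1) + (m + 1))
              rw [Nat.sub_add_cancel h5]
      · exact ⟨0, ψ 0 0, fun h => absurd h hx⟩
    choose T f hf using hex
    set K := (Fintype.card κ * n) ^ (t + 1) with hK
    have hV' : Fintype.card κ * (n * K) ≤ V.card := by
      refine le_trans (le_of_eq ?_) hV
      rw [hK]
      ring
    obtain ⟨b, hb⟩ := pigeon V f (n * K) hVn hV'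
    set W := V.filter (fun x => f x = b) with hW
    by_cases hcl : ∀ H ⊆ W, H.card = n + 1 → ∃ x ∈ H, ∃ y ∈ H, x < y ∧ T x ≤ y
    · obtain ⟨D, hD, hDc, hDd⟩ := intervals T n W.card W rfl
        (fun x hx => (hf x (mem_of_mem_filter x hx)).1) hcl
      have hDK : K ≤ D.card := Nat.le_of_mul_le_mul_left (hb.trans hDc) hn
      have hDV : D ⊆ V := hD.trans (filter_subset _ _)
      obtain ⟨H, hH, hHc, hHb⟩ := ih D ψ hDK (by
        intro x hx
        obtain ⟨g, h, h1, h2, h3⟩ := (hf x (hDV hx)).2.2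
        exact ⟨g, h, h1, h2, fun y hy hxy => h3 y (hDV hy) (hDd x hx y hy hxy)⟩)
      exact ⟨H, hH.trans hDV, hHc, hHb⟩
    · push Not at hcl
      obtain ⟨H, hH, hHc, hHd⟩ := hcl
      obtain ⟨H', hH', hHc'⟩ := exists_subset_card_eq (show n ≤ H.card by omega)
      refine ⟨H', (hH'.trans hH).trans (filter_subset _ _), hHc', b, fun x hx y hy hxy => ?_⟩
      have hx' := mem_filter.1 (hH (hH' hx))
      have hy' := mem_filter.1 (hH (hH' hy))
      rw [(hf x hx'.1).2.1 y hy'.1 hxy (hHd x (hH' hx) y (hH' hy) hxy), hx'.2]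

theorem pair_eq {A : Finset ℕ} (h : A.card = 2) : ∃ x y, x < y ∧ A = {x, y} := by
  obtain ⟨x, y, hxy, rfl⟩ := card_eq_two.1 h
  rcases lt_or_gt_of_ne hxy with h | h
  · exact ⟨x, y, h, rfl⟩
  · exact ⟨y, x, h, pair_comm x y⟩

/-- **Pairs**, few changes in the second vertex. -/
theorem pairs_last [Fintype κ] {n t : ℕ} (hn : 1 ≤ n) (V : Finset ℕ) (c : Finset ℕ → κ)
    (hV : (Fintype.card κ * n) ^ (t + 1) ≤ V.card) (hc : FewChanges c 2 1 t V) :
    ∃ H ⊆ V, H.card = n ∧ Homogeneous 2 c H := by
  classical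
  obtain ⟨H, hH, hHc, b, hb⟩ := pairs n hn t V (fun x y => c {x, y}) hV (by
    intro x hx
    obtain ⟨g, h, h1, h2, h3⟩ := hc {x} (singleton_subset_iff.2 hx) (by simp)
    refine ⟨g, h, h1, h2, fun y hy hxy => ?_⟩
    rw [← h3 y hy (by
      rw [mem_singleton]
      exact hxy.ne') (by
      unfold below
      rw [filter_singleton, if_pos hxy, card_singleton]), pair_comm])
  refine ⟨H, hH, hHc, ?_⟩
  have key : ∀ A ⊆ H, A.card = 2 → c A = b := by
    intro A hA hAc
    obtain ⟨x, y, hxy, rfl⟩ := pair_eq hAc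
    exact hb x (hA (by simp)) y (hA (by simp)) hxy
  intro A hA A' hA' hAc hAc'
  rw [key A hA hAc, key A' hA' hAc']

/-- **Pairs.** -/
theorem pairs_all [Fintype κ] {n t : ℕ} (hn : 1 ≤ n) (V : Finset ℕ) (c : Finset ℕ → κ) (j : ℕ)
    (hj : j < 2) (hV : (Fintype.card κ * n) ^ (t + 1) ≤ V.card) (hc : FewChanges c 2 j t V) :
    ∃ H ⊆ V, H.card = n ∧ Homogeneous 2 c H := by
  classical
  rcases Nat.lt_or_ge j 1 with h | h
  · have h0 : j = 0 := by omega
    subst h0
    have hB : ∀ v ∈ V, v ≤ V.sup id := fun v hv => le_sup (f := id) hv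
    obtain ⟨H, hH, hHc, hHh⟩ := pairs_last hn (V.image (fun x => V.sup id - x))
      (revC (V.sup id) c) (by
        rw [card_image_of_injOn (rev_injOn hB)]
        exact hV) (hc.rev hj hB)
    have hHB : ∀ v ∈ H, v ≤ V.sup id := by
      intro v hv
      obtain ⟨u, -, rfl⟩ := mem_image.1 (hH hv)
      exact Nat.sub_le _ _
    refine ⟨H.image (fun x => V.sup id - x), ?_, ?_, hom_rev hHB hHh⟩
    · intro x hx
      obtain ⟨a, ha, rfl⟩ := mem_image.1 hx
      obtain ⟨v, hv, rfl⟩ := mem_image.1 (hH ha)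
      rw [rev_rev (hB v hv)]
      exact hv
    · rw [card_image_of_injOn (rev_injOn hHB), hHc]
  · have h1 : j = 1 := by omega
    subst h1
    exact pairs_last hn V c hV hc

end Pool.Agent.V11209.FC
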